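import Mathlib

/-!
# Generic independence for polynomial codes with prescribed zeros

We work over the polynomial ring `R = F[X_z : z in sigma]`. For exponents `e 0 < e 1 < ...` the
space of interest is spanned by the monomials `T ^ e l`, `l < k`; an element is given by its
coefficient family `c : ℕ → R`. We prove that families with prescribed zeros at the generic points
`X z` and prescribed vanishing order at `0` are independent, under the combinatorial condition
of the GM-MDS theorem.
-/

namespace Pool.Agent.H95

open MvPolynomial Finset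

variable {σ ι F : Type*} [Field F] [DecidableEq σ] [DecidableEq ι]

/-- Substitution `X j = 0`. -/
noncomputable def kill (F : Type*) [Field F] {σ : Type*} [DecidableEq σ] (j : σ) :
    MvPolynomial σ F →ₐ[F] MvPolynomial σ F :=
  aeval (fun i => if i = j then 0 else X i)

lemma kill_X_self (j : σ) : kill F j (X j) = 0 := by
  simp [kill]

lemma kill_X_ne {i j : σ} (h : i ≠ j) : kill F j (X i) = X i := by
  simp [kill, h]

lemma X_dvd_sub_kill (j : σ) (p : MvPolynomial σ F) : X j ∣ p - kill F j p := by
  induction p using MvPolynomial.induction_on with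
  | C a => simp [kill]
  | add p q hp hq =>
    have : p + q - kill F j (p + q) = (p - kill F j p) + (q - kill F j q) := by
      rw [map_add]; ring
    rw [this]; exact dvd_add hp hq
  | mul_X p i hp =>
    by_cases h : i = j
    · subst h
      rw [map_mul, kill_X_self]
      simp
    · rw [map_mul, kill_X_ne h, ← sub_mul]
      exact Dvd.dvd.mul_right hp _

lemma X_dvd_of_kill_eq_zero {j : σ} {p : MvPolynomial σ F} (h : kill F j p = 0) : X j ∣ p := by
  have := X_dvd_sub_kill (F := F) j p
  rwa [h, sub_zero] at this

lemma kill_eq_zero_of_X_dvd {j : σ} {p : MvPolynomial σ F} (h : X j ∣ p) : kill F j p = 0 := by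
  obtain ⟨q, rfl⟩ := h
  rw [map_mul, kill_X_self, zero_mul]

lemma eq_zero_of_forall_pow_dvd {j : σ} {p : MvPolynomial σ F}
    (h : ∀ m : ℕ, (X j : MvPolynomial σ F) ^ m ∣ p) : p = 0 := by
  by_contra hp
  obtain ⟨q, hq⟩ := h (p.degreeOf j + 1)
  have hq0 : q ≠ 0 := by
    rintro rfl
    exact hp (by simpa using hq)
  have := degreeOf_mul_X_self_pow_eq_add_of_ne_zero (p := q) j (p.degreeOf j + 1) hq0
  rw [mul_comm, ← hq] at this
  omega

/-- If `∑ c l * X z ^ e l = 0` and `c` vanishes below `t < k`, then `X z ∣ c t`. -/
lemma X_dvd_lowest {k t : ℕ} {e : ℕ → ℕ} (he : StrictMono e) {z : σ}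
    {c : ℕ → MvPolynomial σ F} (ht : t < k) (hlow : ∀ l < t, c l = 0)
    (hroot : ∑ l ∈ range k, c l * X z ^ e l = 0) : X z ∣ c t := by
  have h1 : ∑ l ∈ range k, c l * X z ^ e l
      = c t * X z ^ e t + ∑ l ∈ (range k).erase t, c l * X z ^ e l := by
    exact (Finset.add_sum_erase _ (fun l => c l * X z ^ e l) (mem_range.mpr ht)).symm
  have h2 : (X z : MvPolynomial σ F) ^ (e t + 1) ∣ ∑ l ∈ (range k).erase t, c l * X z ^ e l := by
    apply Finset.dvd_sum
    intro l hl
    rw [mem_erase, mem_range] at hl
    rcases lt_or_gt_of_ne hl.1 with h | h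
    · rw [hlow l h, zero_mul]
      exact dvd_zero _
    · exact Dvd.dvd.mul_left (pow_dvd_pow _ (he h)) _
  have h3 : (X z : MvPolynomial σ F) ^ (e t + 1) ∣ c t * X z ^ e t := by
    have : c t * X z ^ e t = - ∑ l ∈ (range k).erase t, c l * X z ^ e l := by
      rw [h1] at hroot
      exact eq_neg_of_add_eq_zero_left hroot
    rw [this]
    exact (dvd_neg).mpr h2
  rw [pow_succ, mul_comm (X z ^ e t) (X z)] at h3
  exact (mul_dvd_mul_iff_right (pow_ne_zero _ (X_ne_zero z))).mp h3

/-- Descent: a class of coefficient families stable under division by `X j` all of whose members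
vanish at `X j = 0` is zero. -/
lemma descent {I : Type*} (j : σ) (P : (I → MvPolynomial σ F) → Prop)
    (hdiv : ∀ c, P (fun i => X j * c i) → P c)
    (hkill : ∀ c, P c → ∀ i, kill F j (c i) = 0) :
    ∀ c, P c → ∀ i, c i = 0 := by
  intro c hc i
  have key : ∀ m : ℕ, ∃ c' : I → MvPolynomial σ F, P c' ∧ ∀ i, c i = X j ^ m * c' i := by
    intro m
    induction m with
    | zero => exact ⟨c, hc, fun i => by simp⟩
    | succ m ih =>
      obtain ⟨c', hc', hcc⟩ := ih
      have h1 := hkill c' hc'
      have h2 : ∀ i, ∃ d, c' i = X j * d := fun i => X_dvd_of_kill_eq_zero (h1 i)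
      choose d hd using h2
      refine ⟨d, hdiv d ?_, fun i => ?_⟩
      · have : (fun i => X j * d i) = c' := by
          funext i; exact (hd i).symm
        rw [this]; exact hc'
      · rw [hcc i, hd i, pow_succ]; ring
  apply eq_zero_of_forall_pow_dvd (j := j)
  intro m
  obtain ⟨c', _, h⟩ := key m
  exact ⟨c' i, h i⟩

/-- Generalised Vandermonde: no nonzero combination of `T ^ e t, ..., T ^ e (k-1)` vanishes at
`k - t` generic points. -/
theorem vandermonde {k : ℕ} {e : ℕ → ℕ} (he : StrictMono e) :
    ∀ (n : ℕ) (Z : Finset σ) (t : ℕ), Z.card = n → Z.card + t = k →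
      ∀ c : ℕ → MvPolynomial σ F, (∀ l, l < t ∨ k ≤ l → c l = 0) →
        (∀ z ∈ Z, ∑ l ∈ range k, c l * X z ^ e l = 0) → ∀ l, c l = 0 := by
  intro n
  induction n with
  | zero =>
    intro Z t hZ hk c hc _ l
    apply hc
    omega
  | succ n ih =>
    intro Z t hZ hk
    obtain ⟨j, hj⟩ : Z.Nonempty := by
      rw [← Finset.card_pos]; omega
    intro c hc1 hc2
    refine descent j (fun c => (∀ l, l < t ∨ k ≤ l → c l = 0) ∧
        (∀ z ∈ Z, ∑ l ∈ range k, c l * X z ^ e l = 0)) ?_ ?_ c ⟨hc1, hc2⟩
    · rintro c ⟨h1, h2⟩
      refine ⟨fun l hl => ?_, fun z hz => ?_⟩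
      · have := h1 l hl
        exact (mul_eq_zero.mp this).resolve_left (X_ne_zero j)
      · have := h2 z hz
        simp only [mul_assoc] at this
        rw [← Finset.mul_sum] at this
        exact (mul_eq_zero.mp this).resolve_left (X_ne_zero j)
    · rintro c ⟨h1, h2⟩
      have hcard : (Z.erase j).card = n := by
        rw [card_erase_of_mem hj, hZ]; rfl
      apply ih (Z.erase j) (t + 1) hcard (by omega) (fun l => kill F j (c l))
      · intro l hl
        by_cases hlt : l = t
        · subst hlt
          apply kill_eq_zero_of_X_dvd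
          exact X_dvd_lowest he (by omega) (fun l' hl' => h1 l' (Or.inl hl')) (h2 j hj)
        · have : c l = 0 := h1 l (by omega)
          simp only [this, map_zero]
      · intro z hz
        rw [mem_erase] at hz
        have := congrArg (kill F j) (h2 z hz.2)
        rw [map_sum, map_zero] at this
        rw [← this]
        apply Finset.sum_congr rfl
        intro l _
        rw [map_mul, map_pow, kill_X_ne hz.1]

/-- The combinatorial condition. -/
def Good (k : ℕ) (S : Finset ι) (Z : ι → Finset σ) (τ : ι → ℕ) : Prop :=
  (∀ i ∈ S, (Z i).card + τ i ≤ k) ∧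
  ∀ Ω ⊆ S, Ω.Nonempty → ∀ (A : Finset σ) (t : ℕ), (∀ i ∈ Ω, A ⊆ Z i ∧ t ≤ τ i) →
    A.card + t + ∑ i ∈ Ω, (k - τ i - (Z i).card) ≤ k

/-- The linear system. -/
structure Sol (k : ℕ) (e : ℕ → ℕ) (S : Finset ι) (Z : ι → Finset σ) (τ : ι → ℕ)
    (c : ι → ℕ → MvPolynomial σ F) : Prop where
  supp : ∀ i ∈ S, ∀ l, l < τ i ∨ k ≤ l → c i l = 0
  root : ∀ i ∈ S, ∀ z ∈ Z i, ∑ l ∈ range k, c i l * X z ^ e l = 0
  sum : ∀ l, ∑ i ∈ S, c i l = 0

lemma Good.subset {k : ℕ} {S T : Finset ι} {Z : ι → Finset σ} {τ : ι → ℕ}
    (h : Good k S Z τ) (hT : T ⊆ S) : Good k T Z τ :=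
  ⟨fun i hi => h.1 i (hT hi), fun Ω hΩ hne A t hA => h.2 Ω (hΩ.trans hT) hne A t hA⟩

theorem generic_independence {k : ℕ} {e : ℕ → ℕ} (he : StrictMono e) :
    ∀ (N : ℕ) (S : Finset ι) (Z : ι → Finset σ) (τ : ι → ℕ),
      S.card + ∑ i ∈ S, (k - τ i) ≤ N → Good k S Z τ →
      ∀ c : ι → ℕ → MvPolynomial σ F, Sol k e S Z τ c → ∀ i ∈ S, ∀ l, c i l = 0 := by
  intro N
  induction N with
  | zero =>
    intro S Z τ hN _ c _ i hi
    have : 0 < S.card := card_pos.mpr ⟨i, hi⟩
    omega
  | succ N ih =>
    intro S Z τ hN hG c hc
    -- small cases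
    by_cases hS1 : S.card ≤ 1
    · intro i hi l
      have hS : S = {i} := by
        apply Finset.eq_singleton_iff_unique_mem.mpr
        refine ⟨hi, fun x hx => ?_⟩
        exact Finset.card_le_one.mp hS1 x hx i hi
      have := hc.sum l
      rw [hS, Finset.sum_singleton] at this
      exact this
    push Not at hS1
    -- a full index can be dropped
    by_cases hfull : ∃ i ∈ S, (Z i).card + τ i = k
    · obtain ⟨i, hi, hik⟩ := hfull
      have hci : ∀ l, c i l = 0 :=
        vandermonde he _ (Z i) (τ i) rfl hik (c i) (hc.supp i hi) (hc.root i hi)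
      have hIH : ∀ i' ∈ S.erase i, ∀ l, c i' l = 0 := by
        apply ih (S.erase i) Z τ _ (hG.subset (erase_subset _ _)) c
        · refine ⟨fun i' hi' => hc.supp i' (mem_of_mem_erase hi'),
            fun i' hi' => hc.root i' (mem_of_mem_erase hi'), fun l => ?_⟩
          have := hc.sum l
          rw [← Finset.add_sum_erase _ _ hi, hci l, zero_add] at this
          exact this
        · have h1 := Finset.add_sum_erase S (fun i => k - τ i) hi
          have h2 := card_erase_of_mem hi
          have h3 : 0 < S.card := card_pos.mpr ⟨i, hi⟩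
          omega
      intro i' hi' l
      by_cases h : i' = i
      · subst h; exact hci l
      · exact hIH i' (mem_erase.mpr ⟨h, hi'⟩) l
    push Not at hfull
    have hlt : ∀ i ∈ S, (Z i).card + τ i < k := fun i hi =>
      lt_of_le_of_ne (hG.1 i hi) (hfull i hi)
    -- tight subfamilies
    by_cases htight : ∃ Ω ⊆ S, Ω ≠ S ∧ 2 ≤ Ω.card ∧ ∃ (A : Finset σ) (t : ℕ),
        (∀ i ∈ Ω, A ⊆ Z i ∧ t ≤ τ i) ∧ A.card + t + ∑ i ∈ Ω, (k - τ i - (Z i).card) = k
    · obtain ⟨Ω, hΩS, hΩne, hΩ2, A, t, hAt, hT⟩ := htight
      obtain ⟨i₁, hi₁⟩ : Ω.Nonempty := card_pos.mp (by omega)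
      have hΩlt : Ω.card < S.card := card_lt_card (Finset.ssubset_iff_subset_ne.mpr ⟨hΩS, hΩne⟩)
      set S' : Finset ι := insert i₁ (S \ Ω) with hS'
      set Z' : ι → Finset σ := Function.update Z i₁ A with hZ'
      set τ' : ι → ℕ := Function.update τ i₁ t with hτ'
      set c' : ι → ℕ → MvPolynomial σ F := Function.update c i₁ (fun l => ∑ i ∈ Ω, c i l) with hc'
      have hi₁' : i₁ ∉ S \ Ω := fun h => (mem_sdiff.mp h).2 hi₁
      have hoff : ∀ i ∈ S \ Ω, i ≠ i₁ := fun i hi h => hi₁' (h ▸ hi)
      have hZoff : ∀ i ∈ S \ Ω, Z' i = Z i := fun i hi => by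
        rw [hZ', Function.update_of_ne (hoff i hi)]
      have hτoff : ∀ i ∈ S \ Ω, τ' i = τ i := fun i hi => by
        rw [hτ', Function.update_of_ne (hoff i hi)]
      have hcoff : ∀ i ∈ S \ Ω, c' i = c i := fun i hi => by
        rw [hc', Function.update_of_ne (hoff i hi)]
      have hZon : Z' i₁ = A := by rw [hZ', Function.update_self]
      have hτon : τ' i₁ = t := by rw [hτ', Function.update_self]
      have hcon : c' i₁ = fun l => ∑ i ∈ Ω, c i l := by rw [hc', Function.update_self]
      have hsumle : k - t ≤ ∑ i ∈ Ω, (k - τ i) := by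
        have h1 : A.card ≤ (Z i₁).card := card_le_card (hAt i₁ hi₁).1
        have h2 : ∑ i ∈ Ω, (k - τ i - (Z i).card) + ∑ i ∈ Ω, (Z i).card = ∑ i ∈ Ω, (k - τ i) := by
          rw [← Finset.sum_add_distrib]
          apply Finset.sum_congr rfl
          intro i hi
          have := hlt i (hΩS hi)
          omega
        have h3 : (Z i₁).card ≤ ∑ i ∈ Ω, (Z i).card :=
          Finset.single_le_sum (f := fun i => (Z i).card) (fun _ _ => Nat.zero_le _) hi₁
        omega
      have hgood' : Good k S' Z' τ' := by
        refine ⟨?_, ?_⟩
        · intro i hi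
          rw [hS', mem_insert] at hi
          rcases hi with rfl | hi
          · rw [hZon, hτon]; omega
          · rw [hZoff i hi, hτoff i hi]
            exact hG.1 i (mem_sdiff.mp hi).1
        · intro Ω' hΩ' hne B s hB
          by_cases h1 : i₁ ∈ Ω'
          · -- combine with Ω
            set Ω'' := Ω'.erase i₁ with hΩ''
            have hsub : Ω'' ⊆ S \ Ω := by
              intro i hi
              have := hΩ' (mem_of_mem_erase hi)
              rw [hS', mem_insert] at this
              exact this.resolve_left (ne_of_mem_erase hi)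
            have hdisj : Disjoint Ω Ω'' := by
              rw [Finset.disjoint_left]
              intro i hi hi'
              exact (mem_sdiff.mp (hsub hi')).2 hi
            have hmain := hG.2 (Ω ∪ Ω'') (union_subset hΩS (fun i hi => (mem_sdiff.mp (hsub hi)).1))
              ⟨i₁, mem_union_left _ hi₁⟩ B s (by
                intro i hi
                rw [mem_union] at hi
                rcases hi with hi | hi
                · have := hB i₁ h1
                  rw [hZon, hτon] at this
                  exact ⟨this.1.trans (hAt i hi).1, this.2.trans (hAt i hi).2⟩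
                · have := hB i (mem_of_mem_erase hi)
                  rw [hZoff i (hsub hi), hτoff i (hsub hi)] at this
                  exact this)
            rw [Finset.sum_union hdisj] at hmain
            have hs1 : ∑ i ∈ Ω', (k - τ' i - (Z' i).card)
                = (k - t - A.card) + ∑ i ∈ Ω'', (k - τ i - (Z i).card) := by
              rw [← Finset.add_sum_erase _ _ h1, hZon, hτon]
              congr 1
              apply Finset.sum_congr rfl
              intro i hi
              rw [hZoff i (hsub hi), hτoff i (hsub hi)]
            rw [hs1]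
            omega
          · have hsub : Ω' ⊆ S \ Ω := by
              intro i hi
              have := hΩ' hi
              rw [hS', mem_insert] at this
              refine this.resolve_left ?_
              rintro rfl
              exact h1 hi
            have := hG.2 Ω' (fun i hi => (mem_sdiff.mp (hsub hi)).1) hne B s (by
              intro i hi
              have := hB i hi
              rwa [hZoff i (hsub hi), hτoff i (hsub hi)] at this)
            refine le_trans (le_of_eq ?_) this
            congr 1
            apply Finset.sum_congr rfl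
            intro i hi
            rw [hZoff i (hsub hi), hτoff i (hsub hi)]
      have hsol' : Sol k e S' Z' τ' c' := by
        refine ⟨?_, ?_, ?_⟩
        · intro i hi l hl
          rw [hS', mem_insert] at hi
          rcases hi with rfl | hi
          · rw [hτon] at hl
            rw [hcon]
            apply Finset.sum_eq_zero
            intro i' hi'
            apply hc.supp i' (hΩS hi')
            have := (hAt i' hi').2
            omega
          · rw [hτoff i hi] at hl
            rw [hcoff i hi]
            exact hc.supp i (mem_sdiff.mp hi).1 l hl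
        · intro i hi z hz
          rw [hS', mem_insert] at hi
          rcases hi with rfl | hi
          · rw [hZon] at hz
            rw [hcon]
            simp only [Finset.sum_mul]
            rw [Finset.sum_comm]
            apply Finset.sum_eq_zero
            intro i' hi'
            exact hc.root i' (hΩS hi') z ((hAt i' hi').1 hz)
          · rw [hZoff i hi] at hz
            rw [hcoff i hi]
            exact hc.root i (mem_sdiff.mp hi).1 z hz
        · intro l
          rw [hS', Finset.sum_insert hi₁', hcon]
          have : ∑ i ∈ S \ Ω, c' i l = ∑ i ∈ S \ Ω, c i l := by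
            apply Finset.sum_congr rfl
            intro i hi
            rw [hcoff i hi]
          rw [this]
          simp only
          rw [add_comm, Finset.sum_sdiff hΩS]
          exact hc.sum l
      have hmeas' : S'.card + ∑ i ∈ S', (k - τ' i) ≤ N := by
        have h1 : S'.card = (S \ Ω).card + 1 := by
          rw [hS', card_insert_of_notMem hi₁']
        have h2 : (S \ Ω).card + Ω.card = S.card := by
          rw [card_sdiff_add_card_eq_card hΩS]
        have h3 : ∑ i ∈ S', (k - τ' i) = (k - t) + ∑ i ∈ S \ Ω, (k - τ i) := by
          rw [hS', Finset.sum_insert hi₁', hτon]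
          congr 1
          apply Finset.sum_congr rfl
          intro i hi
          rw [hτoff i hi]
        have h4 : ∑ i ∈ S \ Ω, (k - τ i) + ∑ i ∈ Ω, (k - τ i) = ∑ i ∈ S, (k - τ i) :=
          Finset.sum_sdiff hΩS
        omega
      have hzero' := ih S' Z' τ' hmeas' hgood' c' hsol'
      have hzoff : ∀ i ∈ S \ Ω, ∀ l, c i l = 0 := by
        intro i hi l
        have := hzero' i (by rw [hS']; exact mem_insert_of_mem hi) l
        rwa [hcoff i hi] at this
      have hzsum : ∀ l, ∑ i ∈ Ω, c i l = 0 := by
        intro l
        have := hzero' i₁ (by rw [hS']; exact mem_insert_self _ _) l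
        rwa [hcon] at this
      have hmeasΩ : Ω.card + ∑ i ∈ Ω, (k - τ i) ≤ N := by
        have h4 : ∑ i ∈ S \ Ω, (k - τ i) + ∑ i ∈ Ω, (k - τ i) = ∑ i ∈ S, (k - τ i) :=
          Finset.sum_sdiff hΩS
        omega
      have hzΩ := ih Ω Z τ hmeasΩ (hG.subset hΩS) c
        ⟨fun i hi => hc.supp i (hΩS hi), fun i hi => hc.root i (hΩS hi), hzsum⟩
      intro i hi l
      by_cases h : i ∈ Ω
      · exact hzΩ i h l
      · exact hzoff i (mem_sdiff.mpr ⟨hi, h⟩) l
    push Not at htight
    -- no tight proper subfamily
    have hntight : ∀ Ω ⊆ S, Ω ≠ S → 2 ≤ Ω.card → ∀ (A : Finset σ) (t : ℕ),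
        (∀ i ∈ Ω, A ⊆ Z i ∧ t ≤ τ i) → A.card + t + ∑ i ∈ Ω, (k - τ i - (Z i).card) < k := by
      intro Ω h1 h2 h3 A t h4
      refine lt_of_le_of_ne (hG.2 Ω h1 (card_pos.mp (by omega)) A t h4) (htight Ω h1 h2 h3 A t h4)
    obtain ⟨i₀, hi₀, hmin⟩ : ∃ i₀ ∈ S, ∀ i ∈ S, τ i₀ ≤ τ i :=
      Finset.exists_min_image S τ (card_pos.mp (by omega))
    by_cases hspec : ∃ i₀ ∈ S, (∀ i ∈ S, τ i₀ ≤ τ i) ∧ ∃ j, j ∉ Z i₀ ∧ ∃ i₂ ∈ S, j ∈ Z i₂
    · -- specialise X j = 0
      clear hmin hi₀ i₀
      obtain ⟨i₀, hi₀, hmin, j, hj₀, i₂, hi₂, hj₂⟩ := hspec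
      set Z' : ι → Finset σ := fun i => (Z i).erase j with hZ'
      set τ' : ι → ℕ := fun i => if j ∈ Z i then τ i + 1 else τ i with hτ'
      have hsame : ∀ i ∈ S, (Z' i).card + τ' i = (Z i).card + τ i := by
        intro i _
        simp only [hZ', hτ']
        by_cases h : j ∈ Z i
        · have h1 : 0 < (Z i).card := card_pos.mpr ⟨j, h⟩
          rw [card_erase_of_mem h, if_pos h]
          omega
        · rw [erase_eq_of_notMem h, if_neg h]
      have hsame' : ∀ i ∈ S, k - τ' i - (Z' i).card = k - τ i - (Z i).card := by
        intro i hi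
        have := hsame i hi
        omega
      have hτle : ∀ i, τ i ≤ τ' i ∧ τ' i ≤ τ i + 1 := by
        intro i
        simp only [hτ']
        split_ifs <;> omega
      have hgood' : Good k S Z' τ' := by
        refine ⟨fun i hi => by rw [hsame i hi]; exact hG.1 i hi, ?_⟩
        intro Ω hΩ hne A t hAt
        have hsum : ∑ i ∈ Ω, (k - τ' i - (Z' i).card) = ∑ i ∈ Ω, (k - τ i - (Z i).card) :=
          Finset.sum_congr rfl (fun i hi => hsame' i (hΩ hi))
        rw [hsum]
        by_cases hΩS : Ω = S
        · have ht : t ≤ τ i₀ := by
            have := (hAt i₀ (hΩS ▸ hi₀)).2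
            simp only [hτ', if_neg hj₀] at this
            exact this
          apply hG.2 Ω hΩ hne A t
          intro i hi
          exact ⟨(hAt i hi).1.trans (erase_subset _ _), ht.trans (hmin i (hΩ hi))⟩
        · by_cases hΩ2 : 2 ≤ Ω.card
          · have := hntight Ω hΩ hΩS hΩ2 A (t - 1) (by
              intro i hi
              refine ⟨(hAt i hi).1.trans (erase_subset _ _), ?_⟩
              have h1 := (hAt i hi).2
              have h2 := (hτle i).2
              omega)
            omega
          · have hΩ1 : Ω.card = 1 := by
              have : 0 < Ω.card := card_pos.mpr hne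
              omega
            obtain ⟨i, rfl⟩ := card_eq_one.mp hΩ1
            rw [sum_singleton]
            have h1 := hAt i (mem_singleton_self i)
            have h2 := card_le_card h1.1
            have h3 := hsame i (hΩ (mem_singleton_self i))
            have h4 := hG.1 i (hΩ (mem_singleton_self i))
            omega
      have hmeas' : S.card + ∑ i ∈ S, (k - τ' i) ≤ N := by
        have : ∑ i ∈ S, (k - τ' i) < ∑ i ∈ S, (k - τ i) := by
          apply Finset.sum_lt_sum
          · intro i _
            have := (hτle i).1
            omega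
          · refine ⟨i₂, hi₂, ?_⟩
            have h1 : τ' i₂ = τ i₂ + 1 := by simp only [hτ', if_pos hj₂]
            have h2 := hlt i₂ hi₂
            omega
        omega
      have hIH := ih S Z' τ' hmeas' hgood'
      -- descent
      have hd := descent (F := F) (I := {i // i ∈ S} × ℕ) j
        (fun d => ∃ c : ι → ℕ → MvPolynomial σ F, Sol k e S Z τ c ∧
          ∀ p : {i // i ∈ S} × ℕ, d p = c p.1 p.2) ?_ ?_
      · intro i hi l
        exact hd (fun p => c p.1 p.2) ⟨c, hc, fun _ => rfl⟩ (⟨i, hi⟩, l)
      · rintro d ⟨c, hc, hdc⟩
        refine ⟨fun i l => if hi : i ∈ S then d (⟨i, hi⟩, l) else 0, ?_, ?_⟩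
        · have hcd : ∀ i (hi : i ∈ S) l, c i l = X j * d (⟨i, hi⟩, l) := by
            intro i hi l
            exact (hdc (⟨i, hi⟩, l)).symm
          refine ⟨?_, ?_, ?_⟩
          · intro i hi l hl
            rw [dif_pos hi]
            have := hc.supp i hi l hl
            rw [hcd i hi] at this
            exact (mul_eq_zero.mp this).resolve_left (X_ne_zero j)
          · intro i hi z hz
            have := hc.root i hi z hz
            simp only [hcd i hi, mul_assoc] at this
            rw [← Finset.mul_sum] at this
            simp only [dif_pos hi]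
            exact (mul_eq_zero.mp this).resolve_left (X_ne_zero j)
          · intro l
            have := hc.sum l
            have h2 : ∑ i ∈ S, c i l
                = X j * ∑ i ∈ S, (if hi : i ∈ S then d (⟨i, hi⟩, l) else 0) := by
              rw [Finset.mul_sum]
              apply Finset.sum_congr rfl
              intro i hi
              rw [dif_pos hi, hcd i hi]
            rw [h2] at this
            exact (mul_eq_zero.mp this).resolve_left (X_ne_zero j)
        · intro p
          simp only [dif_pos p.1.2]
      · rintro d ⟨c, hc, hdc⟩ p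
        rw [hdc p]
        refine hIH (fun i l => kill F j (c i l)) ?_ p.1 p.1.2 p.2
        refine ⟨?_, ?_, ?_⟩
        · intro i hi l hl
          by_cases h : l < τ i ∨ k ≤ l
          · rw [hc.supp i hi l h, map_zero]
          · have hlt' : l < τ' i := by
              rcases hl with hl | hl
              · exact hl
              · exact absurd (Or.inr hl) h
            have hjZ : j ∈ Z i := by
              by_contra hjn
              simp only [hτ', if_neg hjn] at hlt'
              exact h (Or.inl hlt')
            have hlτ : l = τ i := by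
              simp only [hτ', if_pos hjZ] at hlt'
              omega
            subst hlτ
            apply kill_eq_zero_of_X_dvd
            have := hlt i hi
            exact X_dvd_lowest he (by omega) (fun l' hl' => hc.supp i hi l' (Or.inl hl'))
              (hc.root i hi j hjZ)
        · intro i hi z hz
          simp only [hZ', mem_erase] at hz
          have := congrArg (kill F j) (hc.root i hi z hz.2)
          rw [map_sum, map_zero] at this
          rw [← this]
          apply Finset.sum_congr rfl
          intro l _
          rw [map_mul, map_pow, kill_X_ne hz.1]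
        · intro l
          have := congrArg (kill F j) (hc.sum l)
          rwa [map_sum, map_zero] at this
    · push Not at hspec
      -- the index of minimal τ is unique with largest Z
      have hZmax : ∀ i ∈ S, Z i ⊆ Z i₀ := by
        intro i hi j hj
        by_contra hj0
        exact hspec i₀ hi₀ hmin j hj0 i hi hj
      have hτgt : ∀ i ∈ S, i ≠ i₀ → τ i₀ + 1 ≤ τ i := by
        intro i hi hne
        by_contra hcon
        have hτeq : τ i = τ i₀ := by
          have := hmin i hi
          omega
        have hmin' : ∀ i' ∈ S, τ i ≤ τ i' := by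
          intro i' hi'
          rw [hτeq]; exact hmin i' hi'
        have hZeq : Z i = Z i₀ := by
          apply Subset.antisymm (hZmax i hi)
          intro j hj
          by_contra hj0
          exact hspec i hi hmin' j hj0 i₀ hi₀ hj
        have := hG.2 {i, i₀} (by
          intro x hx
          rw [mem_insert, mem_singleton] at hx
          rcases hx with rfl | rfl
          · exact hi
          · exact hi₀) ⟨i, by simp⟩ (Z i₀) (τ i₀) (by
          intro x hx
          rw [mem_insert, mem_singleton] at hx
          rcases hx with rfl | rfl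
          · exact ⟨hZeq ▸ Subset.refl _, hτeq ▸ le_refl _⟩
          · exact ⟨Subset.refl _, le_refl _⟩)
        rw [sum_pair hne, hZeq, hτeq] at this
        have h2 := hlt i₀ hi₀
        omega
      have hc0 : c i₀ (τ i₀) = 0 := by
        have := hc.sum (τ i₀)
        rw [← Finset.add_sum_erase _ _ hi₀] at this
        have h2 : ∑ i ∈ S.erase i₀, c i (τ i₀) = 0 := by
          apply Finset.sum_eq_zero
          intro i hi
          rw [mem_erase] at hi
          apply hc.supp i hi.2
          left
          have := hτgt i hi.2 hi.1
          omega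
        rwa [h2, add_zero] at this
      set τ' : ι → ℕ := Function.update τ i₀ (τ i₀ + 1) with hτ'
      have hτon : τ' i₀ = τ i₀ + 1 := by rw [hτ', Function.update_self]
      have hτoff : ∀ i, i ≠ i₀ → τ' i = τ i := fun i hi => by
        rw [hτ', Function.update_of_ne hi]
      have hk0 := hlt i₀ hi₀
      have hgood' : Good k S Z τ' := by
        refine ⟨?_, ?_⟩
        · intro i hi
          by_cases h : i = i₀
          · subst h; rw [hτon]; omega
          · rw [hτoff i h]; exact hG.1 i hi
        · intro Ω hΩ hne A t hAt
          by_cases h0 : i₀ ∈ Ω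
          · have hs : ∑ i ∈ Ω, (k - τ' i - (Z i).card) + 1 = ∑ i ∈ Ω, (k - τ i - (Z i).card) := by
              rw [← Finset.add_sum_erase _ _ h0, ← Finset.add_sum_erase Ω _ h0, hτon]
              have : ∑ i ∈ Ω.erase i₀, (k - τ' i - (Z i).card)
                  = ∑ i ∈ Ω.erase i₀, (k - τ i - (Z i).card) := by
                apply Finset.sum_congr rfl
                intro i hi
                rw [hτoff i (ne_of_mem_erase hi)]
              rw [this]
              omega
            have ht : t ≤ τ i₀ + 1 := by
              have := (hAt i₀ h0).2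
              rwa [hτon] at this
            have := hG.2 Ω hΩ hne A (t - 1) (by
              intro i hi
              refine ⟨(hAt i hi).1, ?_⟩
              by_cases h : i = i₀
              · subst h; omega
              · have h1 := (hAt i hi).2
                rw [hτoff i h] at h1
                omega)
            omega
          · have := hG.2 Ω hΩ hne A t (by
              intro i hi
              refine ⟨(hAt i hi).1, ?_⟩
              have h : i ≠ i₀ := fun h => h0 (h ▸ hi)
              have h1 := (hAt i hi).2
              rwa [hτoff i h] at h1)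
            refine le_trans (le_of_eq ?_) this
            congr 1
            apply Finset.sum_congr rfl
            intro i hi
            have h : i ≠ i₀ := fun h => h0 (h ▸ hi)
            rw [hτoff i h]
      have hmeas' : S.card + ∑ i ∈ S, (k - τ' i) ≤ N := by
        have : ∑ i ∈ S, (k - τ' i) + 1 = ∑ i ∈ S, (k - τ i) := by
          rw [← Finset.add_sum_erase _ _ hi₀, ← Finset.add_sum_erase S _ hi₀, hτon]
          have : ∑ i ∈ S.erase i₀, (k - τ' i) = ∑ i ∈ S.erase i₀, (k - τ i) := by
            apply Finset.sum_congr rfl
            intro i hi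
            rw [hτoff i (ne_of_mem_erase hi)]
          rw [this]
          omega
        omega
      apply ih S Z τ' hmeas' hgood' c
      refine ⟨?_, hc.root, hc.sum⟩
      intro i hi l hl
      by_cases h : i = i₀
      · subst h
        rw [hτon] at hl
        by_cases hl' : l = τ i
        · rw [hl']; exact hc0
        · exact hc.supp i hi l (by omega)
      · rw [hτoff i h] at hl
        exact hc.supp i hi l hl

end Pool.Agent.H95
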