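import Mathlib

/-!
# Extending zero patterns to maximal ones
-/

namespace Pool.Agent.H95

open Finset

variable {σ ι : Type*} [Fintype σ] [DecidableEq σ] [Fintype ι] [DecidableEq ι]

/-- The common intersection of the sets `Z i`, `i ∈ Ω`. -/
def inter (Z : ι → Finset σ) (Ω : Finset ι) : Finset σ :=
  univ.filter (fun j => ∀ i ∈ Ω, j ∈ Z i)


lemma mem_inter_iff' {Z : ι → Finset σ} {Ω : Finset ι} {j : σ} :
    j ∈ inter Z Ω ↔ ∀ i ∈ Ω, j ∈ Z i := by
  simp [inter]

/-- The MDS condition. -/
def Cond (k : ℕ) (Z : ι → Finset σ) : Prop :=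
  ∀ Ω : Finset ι, Ω.Nonempty → (inter Z Ω).card + Ω.card ≤ k


lemma tight_inter {k : ℕ} {Z : ι → Finset σ} (h : Cond k Z) {Ω Ω' : Finset ι} {i : ι}
    (hi : i ∈ Ω) (hi' : i ∈ Ω') (hT : (inter Z Ω).card + Ω.card = k)
    (hT' : (inter Z Ω').card + Ω'.card = k) :
    (inter Z (Ω ∩ Ω')).card + (Ω ∩ Ω').card = k := by
  have h1 := h (Ω ∪ Ω') ⟨i, mem_union_left _ hi⟩
  have h2 := h (Ω ∩ Ω') ⟨i, mem_inter.mpr ⟨hi, hi'⟩⟩
  have h3 : inter Z (Ω ∪ Ω') = inter Z Ω ∩ inter Z Ω' := by
    ext j
    simp only [Finset.mem_inter, mem_inter_iff', Finset.mem_union]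
    constructor
    · intro hj
      exact ⟨fun i hi => hj i (Or.inl hi), fun i hi => hj i (Or.inr hi)⟩
    · rintro ⟨h1, h2⟩ i (hi | hi)
      · exact h1 i hi
      · exact h2 i hi
  have h4 : (inter Z Ω ∪ inter Z Ω').card ≤ (inter Z (Ω ∩ Ω')).card := by
    apply card_le_card
    intro j hj
    simp only [Finset.mem_inter, mem_inter_iff', Finset.mem_union] at *
    rintro i ⟨hi, hi'⟩
    rcases hj with hj | hj
    · exact hj i hi
    · exact hj i hi'
  have h5 := card_union_add_card_inter (inter Z Ω) (inter Z Ω')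
  have h6 := card_union_add_card_inter Ω Ω'
  rw [h3] at h1
  omega


lemma exists_extend_one {k : ℕ} {Z : ι → Finset σ} (h : Cond k Z)
    (hk : k ≤ Fintype.card σ) {i : ι} (hi : (Z i).card + 1 < k) :
    ∃ j, j ∉ Z i ∧ Cond k (Function.update Z i (insert j (Z i))) := by
  classical
  by_contra hcon
  push Not at hcon
  -- for each `j ∉ Z i` there is a tight set
  have key : ∀ j, j ∉ Z i → ∃ Ω : Finset ι, i ∈ Ω ∧ (inter Z Ω).card + Ω.card = k ∧
      ∀ l ∈ Ω, l ≠ i → j ∈ Z l := by
    intro j hj
    have h1 := hcon j hj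
    unfold Cond at h1
    push Not at h1
    obtain ⟨Ω, hne, hΩ⟩ := h1
    have hsub : inter (Function.update Z i (insert j (Z i))) Ω ⊆ insert j (inter Z Ω) := by
      intro x hx
      rw [mem_inter_iff'] at hx
      rw [mem_insert]
      by_cases hxj : x = j
      · left; exact hxj
      · right
        rw [mem_inter_iff']
        intro l hl
        have := hx l hl
        by_cases hli : l = i
        · subst hli
          rw [Function.update_self, mem_insert] at this
          exact this.resolve_left hxj
        · rwa [Function.update_of_ne hli] at this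
    have hle := h Ω hne
    have hiΩ : i ∈ Ω := by
      by_contra hiΩ
      have : inter (Function.update Z i (insert j (Z i))) Ω = inter Z Ω := by
        ext x
        rw [mem_inter_iff', mem_inter_iff']
        constructor
        · intro hx l hl
          have := hx l hl
          have hli : l ≠ i := fun e => hiΩ (e ▸ hl)
          rwa [Function.update_of_ne hli] at this
        · intro hx l hl
          have hli : l ≠ i := fun e => hiΩ (e ▸ hl)
          rw [Function.update_of_ne hli]
          exact hx l hl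
      rw [this] at hΩ
      omega
    have hc := card_le_card hsub
    have hc2 := card_insert_le j (inter Z Ω)
    refine ⟨Ω, hiΩ, by omega, ?_⟩
    intro l hl hli
    by_contra hjl
    have hsub2 : inter (Function.update Z i (insert j (Z i))) Ω ⊆ inter Z Ω := by
      intro x hx
      have hx' := hsub hx
      rw [mem_insert] at hx'
      rcases hx' with rfl | hx'
      · exfalso
        rw [mem_inter_iff'] at hx
        have := hx l hl
        rw [Function.update_of_ne hli] at this
        exact hjl this
      · exact hx'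
    have := card_le_card hsub2
    omega
  -- a tight set of minimal cardinality
  have hex : ∃ m, ∃ Ω : Finset ι, Ω.card = m ∧ i ∈ Ω ∧ (inter Z Ω).card + Ω.card = k := by
    have : ∃ j, j ∉ Z i := by
      by_contra hall
      push Not at hall
      have : Z i = univ := by
        ext x; simp [hall x]
      rw [this, card_univ] at hi
      omega
    obtain ⟨j, hj⟩ := this
    obtain ⟨Ω, h1, h2, _⟩ := key j hj
    exact ⟨_, Ω, rfl, h1, h2⟩
  obtain ⟨Ω, hΩcard, hiΩ, hΩT⟩ := Nat.find_spec hex
  have hmin : ∀ Ω' : Finset ι, i ∈ Ω' → (inter Z Ω').card + Ω'.card = k → Ω ⊆ Ω' := by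
    intro Ω' hi' hT'
    have hT := tight_inter h hiΩ hi' hΩT hT'
    have : Nat.find hex ≤ (Ω ∩ Ω').card :=
      Nat.find_min' hex ⟨Ω ∩ Ω', rfl, Finset.mem_inter.mpr ⟨hiΩ, hi'⟩, hT⟩
    rw [← hΩcard] at this
    have h2 : Ω ∩ Ω' = Ω := Finset.eq_of_subset_of_card_le Finset.inter_subset_left this
    rw [← h2]
    exact Finset.inter_subset_right
  have hall : ∀ j, j ∉ Z i → ∀ l ∈ Ω, l ≠ i → j ∈ Z l := by
    intro j hj l hl hli
    obtain ⟨Ω', h1, h2, h3⟩ := key j hj
    exact h3 l (hmin Ω' h1 h2 hl) hli
  have hcardΩ : 2 ≤ Ω.card := by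
    by_contra hlt
    have h1 : Ω = {i} := by
      apply Finset.eq_singleton_iff_unique_mem.mpr
      refine ⟨hiΩ, fun x hx => ?_⟩
      exact Finset.card_le_one.mp (by omega) x hx i hiΩ
    rw [h1] at hΩT
    have h2 : inter Z {i} = Z i := by
      ext x; rw [mem_inter_iff']; simp
    rw [h2, card_singleton] at hΩT
    omega
  have hne' : (Ω.erase i).Nonempty := by
    rw [← card_pos, card_erase_of_mem hiΩ]; omega
  have h1 := h (Ω.erase i) hne'
  have h2 : inter Z (Ω.erase i) = inter Z Ω ∪ (univ \ Z i) := by
    ext x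
    rw [mem_inter_iff', Finset.mem_union, mem_inter_iff', mem_sdiff]
    constructor
    · intro hx
      by_cases hxi : x ∈ Z i
      · left
        intro l hl
        by_cases hli : l = i
        · subst hli; exact hxi
        · exact hx l (mem_erase.mpr ⟨hli, hl⟩)
      · right; exact ⟨mem_univ _, hxi⟩
    · rintro (hx | hx) l hl
      · exact hx l (mem_of_mem_erase hl)
      · exact hall x hx.2 l (mem_of_mem_erase hl) (ne_of_mem_erase hl)
  have h3 : Disjoint (inter Z Ω) (univ \ Z i) := by
    rw [Finset.disjoint_left]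
    intro x hx hx'
    rw [mem_inter_iff'] at hx
    exact (mem_sdiff.mp hx').2 (hx i hiΩ)
  rw [h2, card_union_of_disjoint h3, card_erase_of_mem hiΩ] at h1
  have h4 : (univ \ Z i).card = Fintype.card σ - (Z i).card := by
    rw [card_univ_sdiff]
  omega

theorem exists_extend {k : ℕ} (hk : k ≤ Fintype.card σ) :
    ∀ (N : ℕ) (Z : ι → Finset σ), Cond k Z → ∑ i, (k - 1 - (Z i).card) = N →
      ∃ Z' : ι → Finset σ, (∀ i, Z i ⊆ Z' i) ∧ (∀ i, (Z' i).card + 1 = k) ∧ Cond k Z' := by
  intro N
  induction N with
  | zero =>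
    intro Z hZ hN
    refine ⟨Z, fun i => Subset.refl _, fun i => ?_, hZ⟩
    rw [Finset.sum_eq_zero_iff] at hN
    have h1 := hN i (mem_univ i)
    have h2 := hZ {i} (singleton_nonempty i)
    have h3 : inter Z {i} = Z i := by
      ext x; rw [mem_inter_iff']; simp
    rw [h3, card_singleton] at h2
    omega
  | succ N ih =>
    intro Z hZ hN
    have h0 : ∃ i, 0 < k - 1 - (Z i).card := by
      by_contra hcon
      push Not at hcon
      have : ∑ i, (k - 1 - (Z i).card) = 0 :=
        Finset.sum_eq_zero (fun i _ => Nat.le_zero.mp (hcon i))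
      omega
    obtain ⟨i, hi⟩ := h0
    obtain ⟨j, hj, hC⟩ := exists_extend_one hZ hk (i := i) (by omega)
    have hsum : ∑ l, (k - 1 - (Function.update Z i (insert j (Z i)) l).card) = N := by
      have h1 := Finset.add_sum_erase univ (fun l => k - 1 - (Z l).card) (mem_univ i)
      have h2 := Finset.add_sum_erase univ
        (fun l => k - 1 - (Function.update Z i (insert j (Z i)) l).card) (mem_univ i)
      have h3 : ∑ l ∈ univ.erase i, (k - 1 - (Function.update Z i (insert j (Z i)) l).card)
          = ∑ l ∈ univ.erase i, (k - 1 - (Z l).card) := by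
        apply Finset.sum_congr rfl
        intro l hl
        rw [Function.update_of_ne (ne_of_mem_erase hl)]
      have h4 : (Function.update Z i (insert j (Z i)) i).card = (Z i).card + 1 := by
        rw [Function.update_self, card_insert_of_notMem hj]
      simp only [h4] at h2
      omega
    obtain ⟨Z', h1, h2, h3⟩ := ih _ hC hsum
    refine ⟨Z', fun l => ?_, h2, h3⟩
    by_cases hl : l = i
    · subst hl
      have := h1 l
      rw [Function.update_self] at this
      exact (subset_insert _ _).trans this
    · have := h1 l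
      rwa [Function.update_of_ne hl] at this

end Pool.Agent.H95
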