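import Mathlib

/-!
# Moore matrices, duality and the support-constrained codewords
-/

namespace Pool.Agent.H95

open Finset Matrix

section Frob

variable (K : Type*) [Field K] [Fintype K] (E : Type*) [CommRing E] [Algebra K E]

/-- The power map `x ↦ x ^ (q ^ a)`. -/
def frob (a : ℕ) : E →ₐ[K] E := (FiniteField.frobeniusAlgHom K E) ^ a

lemma frob_apply (a : ℕ) (x : E) : frob K E a x = x ^ (Fintype.card K ^ a) := by
  unfold frob
  rw [AlgHom.coe_pow, FiniteField.coe_frobeniusAlgHom, pow_iterate]

end Frob

/-- The Moore matrix. -/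
def moore {R : Type*} [CommRing R] (q : ℕ) {n : ℕ} (h : Fin n → R) : Matrix (Fin n) (Fin n) R :=
  Matrix.of fun i j => h j ^ (q ^ (i : ℕ))

section Field

variable {K : Type*} [Field K] [Fintype K] {E : Type*} [Field E] [Algebra K E]

lemma sum_pow_card {ι : Type*} (s : Finset ι) (f : ι → E) (a : ℕ) :
    (∑ j ∈ s, f j) ^ (Fintype.card K ^ a) = ∑ j ∈ s, f j ^ (Fintype.card K ^ a) := by
  rw [← frob_apply K E, map_sum]
  simp only [frob_apply]

lemma orth {n : ℕ} {g h : Fin n → E} {i : ℕ}
    (H : ∑ j, g j ^ (Fintype.card K ^ i) * h j = 0) (a : ℕ) :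
    ∑ j, g j ^ (Fintype.card K ^ (i + a)) * h j ^ (Fintype.card K ^ a) = 0 := by
  have := congrArg (fun x => x ^ (Fintype.card K ^ a)) H
  beta_reduce at this
  rw [sum_pow_card, zero_pow (pow_ne_zero _ Fintype.card_ne_zero)] at this
  rw [← this]
  apply Finset.sum_congr rfl
  intro j _
  rw [mul_pow, ← pow_mul, pow_add]

lemma moore_det_dual {n : ℕ} (g h : Fin n → E)
    (H : ∀ i : ℕ, i < n → ∑ j, g j ^ (Fintype.card K ^ i) * h j = if i + 1 = n then 1 else 0) :
    (moore (Fintype.card K) h).det ≠ 0 := by
  set A : Matrix (Fin n) (Fin n) E :=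
    Matrix.of fun b j => g j ^ (Fintype.card K ^ ((b : ℕ) + n - 1)) with hA
  have hN : ∀ b a : Fin n, (A * (moore (Fintype.card K) h)ᵀ) b a
      = (∑ j, g j ^ (Fintype.card K ^ ((b : ℕ) + n - 1 - a)) * h j) ^ (Fintype.card K ^ (a : ℕ)) := by
    intro b a
    rw [Matrix.mul_apply, sum_pow_card]
    apply Finset.sum_congr rfl
    intro j _
    simp only [hA, moore, Matrix.of_apply, Matrix.transpose_apply]
    rw [mul_pow, ← pow_mul, ← pow_add]
    congr 3
    have := a.isLt
    omega
  have hdet : (A * (moore (Fintype.card K) h)ᵀ).det = 1 := by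
    rw [Matrix.det_of_isLowerTriangular]
    · apply Finset.prod_eq_one
      intro a _
      rw [hN]
      have h1 : (a : ℕ) + n - 1 - a = n - 1 := by
        have := a.isLt
        omega
      have h2 : n - 1 + 1 = n := by
        have := a.isLt
        omega
      rw [h1, H _ (by omega), if_pos h2, one_pow]
    · intro b a hab
      have hab' : b < a := by simpa using hab
      rw [hN]
      have h3 : (b : ℕ) < a := hab'
      have h4 := a.isLt
      rw [H _ (by omega), if_neg (by omega), zero_pow]
      exact pow_ne_zero _ Fintype.card_ne_zero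
  intro h0
  rw [Matrix.det_mul, Matrix.det_transpose, h0, mul_zero] at hdet
  exact zero_ne_one hdet

lemma exists_dual {n : ℕ} (g : Fin n → E) (hg : (moore (Fintype.card K) g).det ≠ 0) :
    ∃ h : Fin n → E,
      ∀ i : ℕ, i < n → ∑ j, g j ^ (Fintype.card K ^ i) * h j = if i + 1 = n then 1 else 0 := by
  have hu : IsUnit (moore (Fintype.card K) g).det := isUnit_iff_ne_zero.mpr hg
  refine ⟨(moore (Fintype.card K) g)⁻¹.mulVec (fun i => if (i : ℕ) + 1 = n then 1 else 0), ?_⟩
  intro i hi
  have := Matrix.mulVec_mulVec (fun i : Fin n => if (i : ℕ) + 1 = n then (1 : E) else 0)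
    (moore (Fintype.card K) g) (moore (Fintype.card K) g)⁻¹
  rw [Matrix.mul_nonsing_inv _ hu, Matrix.one_mulVec] at this
  have h2 := congrFun this ⟨i, hi⟩
  simp only [Matrix.mulVec, dotProduct, moore, Matrix.of_apply] at h2 ⊢
  exact h2

lemma linearIndependent_of_moore {n : ℕ} (h : Fin n → E)
    (hh : (moore (Fintype.card K) h).det ≠ 0) : LinearIndependent K h := by
  rw [Fintype.linearIndependent_iff]
  intro a ha i
  have h1 : (moore (Fintype.card K) h).mulVec (fun j => algebraMap K E (a j)) = 0 := by
    funext b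
    simp only [Matrix.mulVec, dotProduct, moore, Matrix.of_apply, Pi.zero_apply]
    have := congrArg (frob K E b) ha
    rw [map_sum, map_zero] at this
    rw [← this]
    apply Finset.sum_congr rfl
    intro j _
    rw [map_smul, frob_apply, Algebra.smul_def, mul_comm]
  have h2 := Matrix.eq_zero_of_mulVec_eq_zero hh h1
  have h3 := congrFun h2 i
  simpa using h3

lemma moore_of_linearIndependent {s : ℕ} (h : Fin s → E)
    (hh : LinearIndependent K h) : (moore (Fintype.card K) h).det ≠ 0 := by
  classical
  intro hdet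
  obtain ⟨v, hv, hv0⟩ := Matrix.exists_vecMul_eq_zero_iff.mpr hdet
  have hs : 0 < s := by
    rcases Nat.eq_zero_or_pos s with rfl | h
    · exact absurd (Subsingleton.elim v 0) hv
    · exact h
  set P : Polynomial E := ∑ i : Fin s, Polynomial.C (v i) * Polynomial.X ^ (Fintype.card K ^ (i : ℕ))
    with hP
  have hq : 1 < Fintype.card K := Fintype.one_lt_card
  have hP0 : P ≠ 0 := by
    intro h0
    apply hv
    funext i
    have := congrArg (fun p => Polynomial.coeff p (Fintype.card K ^ (i : ℕ))) h0
    simp only [hP, Polynomial.finsetSum_coeff, Polynomial.coeff_C_mul, Polynomial.coeff_X_pow,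
      Polynomial.coeff_zero] at this
    rw [Finset.sum_eq_single i] at this
    · simpa using this
    · intro j _ hji
      rw [if_neg, mul_zero]
      intro heq
      apply hji
      have := Nat.pow_right_injective hq heq
      exact (Fin.ext this).symm
    · intro h; exact absurd (mem_univ i) h
  have hdeg : P.natDegree ≤ Fintype.card K ^ (s - 1) := by
    apply Polynomial.natDegree_sum_le_of_forall_le
    intro i _
    refine (Polynomial.natDegree_C_mul_X_pow_le _ _).trans ?_
    apply Nat.pow_le_pow_right (by omega)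
    have := i.isLt
    omega
  have heval : ∀ x : E, P.eval x = ∑ i : Fin s, v i * x ^ (Fintype.card K ^ (i : ℕ)) := by
    intro x
    simp [hP, Polynomial.eval_finsetSum]
  have hroot : ∀ a : Fin s → K, P.eval (∑ j, a j • h j) = 0 := by
    intro a
    rw [heval]
    have h1 : ∀ i : Fin s, (∑ j, a j • h j) ^ (Fintype.card K ^ (i : ℕ))
        = ∑ j, a j • h j ^ (Fintype.card K ^ (i : ℕ)) := by
      intro i
      rw [← frob_apply K E, map_sum]
      apply Finset.sum_congr rfl
      intro j _
      rw [map_smul, frob_apply]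
    simp only [h1, Finset.mul_sum]
    rw [Finset.sum_comm]
    apply Finset.sum_eq_zero
    intro j _
    have h2 := congrFun hv0 j
    simp only [Matrix.vecMul, dotProduct, moore, Matrix.of_apply, Pi.zero_apply] at h2
    have h3 : ∑ i : Fin s, v i * a j • h j ^ (Fintype.card K ^ (i : ℕ))
        = a j • ∑ i : Fin s, v i * h j ^ (Fintype.card K ^ (i : ℕ)) := by
      rw [Finset.smul_sum]
      apply Finset.sum_congr rfl
      intro i _
      rw [mul_smul_comm]
    rw [h3, h2, smul_zero]
  have hinj : Function.Injective (fun a : Fin s → K => ∑ j, a j • h j) := by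
    intro a b hab
    rw [Fintype.linearIndependent_iff] at hh
    funext i
    have := hh (fun j => a j - b j) (by
      simp only [sub_smul, Finset.sum_sub_distrib]
      exact sub_eq_zero.mpr hab) i
    exact sub_eq_zero.mp this
  have hcard : Fintype.card K ^ s ≤ P.roots.toFinset.card := by
    have h1 : (Finset.univ.image (fun a : Fin s → K => ∑ j, a j • h j)) ⊆ P.roots.toFinset := by
      intro x hx
      rw [Finset.mem_image] at hx
      obtain ⟨a, _, rfl⟩ := hx
      rw [Multiset.mem_toFinset, Polynomial.mem_roots hP0]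
      exact hroot a
    have h2 := card_le_card h1
    rw [Finset.card_image_of_injective _ hinj, Finset.card_univ, Fintype.card_fun,
      Fintype.card_fin] at h2
    exact h2
  have h1 : P.roots.toFinset.card ≤ P.natDegree :=
    (Multiset.toFinset_card_le _).trans (Polynomial.card_roots' P)
  have h2 : Fintype.card K ^ (s - 1) < Fintype.card K ^ s :=
    Nat.pow_lt_pow_right hq (by omega)
  omega

end Field

section Wvec

variable {R : Type*} [CommRing R]

/-- The codeword supported on the `r+1` coordinates `s 0, ..., s r`, orthogonal to the vectors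
`(h j ^ (q ^ b))_j` for `b < r`, given by Moore minors. -/
def wvec (q : ℕ) {n r : ℕ} (h : Fin n → R) (s : Fin (r + 1) → Fin n) (j : Fin n) : R :=
  ∑ a : Fin (r + 1), if s a = j then
    (-1) ^ (a : ℕ) * (Matrix.of fun (b a' : Fin r) => h (s (a.succAbove a')) ^ (q ^ (b : ℕ))).det
    else 0

lemma wvec_eq_zero {q n r : ℕ} {h : Fin n → R} {s : Fin (r + 1) → Fin n} {j : Fin n}
    (hj : ∀ a, s a ≠ j) : wvec q h s j = 0 := by
  unfold wvec
  apply Finset.sum_eq_zero
  intro a _
  rw [if_neg (hj a)]

lemma wvec_apply {q n r : ℕ} {h : Fin n → R} {s : Fin (r + 1) → Fin n}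
    (hs : Function.Injective s) (a : Fin (r + 1)) :
    wvec q h s (s a) = (-1) ^ (a : ℕ) *
      (Matrix.of fun (b a' : Fin r) => h (s (a.succAbove a')) ^ (q ^ (b : ℕ))).det := by
  unfold wvec
  rw [Finset.sum_eq_single a]
  · rw [if_pos rfl]
  · intro b _ hb
    rw [if_neg (fun h => hb (hs h))]
  · intro h; exact absurd (mem_univ a) h

lemma sum_wvec_mul {q n r : ℕ} (h : Fin n → R) (s : Fin (r + 1) → Fin n) (y : Fin n → R) :
    ∑ j, wvec q h s j * y j =
      (Matrix.of (Fin.cons (fun a => y (s a))
        (fun (b : Fin r) (a : Fin (r + 1)) => h (s a) ^ (q ^ (b : ℕ)))) :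
          Matrix (Fin (r + 1)) (Fin (r + 1)) R).det := by
  rw [Matrix.det_succ_row_zero]
  simp only [wvec, Finset.sum_mul]
  rw [Finset.sum_comm]
  apply Finset.sum_congr rfl
  intro a _
  simp only [ite_mul, zero_mul]
  rw [Finset.sum_ite_eq]
  simp only [mem_univ, if_true, Matrix.of_apply, Fin.cons_zero]
  rw [mul_right_comm]
  congr 2

lemma wvec_orth {q n r : ℕ} (h : Fin n → R) (s : Fin (r + 1) → Fin n) (b : Fin r) :
    ∑ j, wvec q h s j * h j ^ (q ^ (b : ℕ)) = 0 := by
  rw [sum_wvec_mul]
  apply Matrix.det_zero_of_row_eq (i := 0) (j := b.succ) (Fin.succ_ne_zero b).symm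
  funext a
  simp [Matrix.of_apply]

lemma map_wvec {R' : Type*} [CommRing R'] (f : R →+* R') {q n r : ℕ} (h : Fin n → R)
    (s : Fin (r + 1) → Fin n) (j : Fin n) :
    f (wvec q h s j) = wvec q (fun i => f (h i)) s j := by
  unfold wvec
  rw [map_sum]
  apply Finset.sum_congr rfl
  intro a _
  split_ifs
  · rw [map_mul, map_pow, map_neg, map_one, RingHom.map_det]
    congr 2
    ext b a'
    simp [Matrix.of_apply]
  · exact map_zero f

end Wvec

section Unique

variable {K : Type*} [Field K] [Fintype K] {E : Type*} [Field E] [Algebra K E]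

lemma wvec_unique {n r : ℕ} {h : Fin n → E} (hh : LinearIndependent K h)
    {s : Fin (r + 1) → Fin n} (hs : Function.Injective s) {y : Fin n → E}
    (hy : ∀ j, (∀ a, s a ≠ j) → y j = 0)
    (hy' : ∀ b : Fin r, ∑ j, y j * h j ^ (Fintype.card K ^ (b : ℕ)) = 0) :
    ∃ c : E, y = fun j => c * wvec (Fintype.card K) h s j := by
  set w := wvec (Fintype.card K) h s with hw
  have hw0 : w (s 0) ≠ 0 := by
    rw [hw, wvec_apply hs 0]
    refine mul_ne_zero (by simp) ?_
    exact moore_of_linearIndependent (fun a' => h (s ((0 : Fin (r + 1)).succAbove a')))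
      (hh.comp _ (hs.comp Fin.succAbove_right_injective))
  refine ⟨y (s 0) / w (s 0), ?_⟩
  set y' : Fin n → E := fun j => y j - y (s 0) / w (s 0) * w j with hy'def
  have h0 : y' (s 0) = 0 := by
    simp only [hy'def]
    field_simp
    ring
  have h1 : ∀ j, (∀ a, s a ≠ j) → y' j = 0 := by
    intro j hj
    simp only [hy'def]
    rw [hy j hj, hw, wvec_eq_zero hj]
    ring
  have h2 : ∀ b : Fin r, ∑ j, y' j * h j ^ (Fintype.card K ^ (b : ℕ)) = 0 := by
    intro b
    simp only [hy'def, sub_mul, Finset.sum_sub_distrib]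
    rw [hy' b, zero_sub, neg_eq_zero]
    have := wvec_orth (q := Fintype.card K) h s b
    simp only [mul_assoc]
    rw [← Finset.mul_sum]
    rw [← hw] at this
    rw [this, mul_zero]
  -- restrict to the image of s
  have h3 : ∀ b : Fin r, ∑ a' : Fin r, y' (s a'.succ) * h (s a'.succ) ^ (Fintype.card K ^ (b : ℕ))
      = 0 := by
    intro b
    rw [← h2 b]
    have h4 : ∑ j, y' j * h j ^ (Fintype.card K ^ (b : ℕ))
        = ∑ j ∈ Finset.univ.image s, y' j * h j ^ (Fintype.card K ^ (b : ℕ)) := by
      symm
      apply Finset.sum_subset (Finset.subset_univ _)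
      intro j _ hj
      rw [h1 j, zero_mul]
      intro a ha
      exact hj (Finset.mem_image.mpr ⟨a, mem_univ _, ha⟩)
    rw [h4, Finset.sum_image (fun a _ b _ hab => hs hab), Fin.sum_univ_succ, h0, zero_mul, zero_add]
  have h5 : (moore (Fintype.card K) (fun a' : Fin r => h (s a'.succ))).mulVec
      (fun a' => y' (s a'.succ)) = 0 := by
    funext b
    simp only [Matrix.mulVec, dotProduct, moore, Matrix.of_apply, Pi.zero_apply]
    rw [← h3 b]
    apply Finset.sum_congr rfl
    intro a' _
    rw [mul_comm]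
  have h6 := Matrix.eq_zero_of_mulVec_eq_zero
    (moore_of_linearIndependent (fun a' : Fin r => h (s a'.succ))
      (hh.comp _ (hs.comp (Fin.succ_injective r)))) h5
  have h7 : ∀ j, y' j = 0 := by
    intro j
    by_cases hj : ∀ a, s a ≠ j
    · exact h1 j hj
    · push Not at hj
      obtain ⟨a, rfl⟩ := hj
      rcases Fin.eq_zero_or_eq_succ a with rfl | ⟨a', rfl⟩
      · exact h0
      · exact congrFun h6 a'
  funext j
  have := h7 j
  simp only [hy'def] at this
  exact sub_eq_zero.mp this

end Unique

end Pool.Agent.H95
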