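import Mathlib
import Pool.Agent.H95.Generic
import Pool.Agent.H95.Extend
import Pool.Agent.H95.Moore

/-!
# Support-constrained Gabidulin codes
-/

namespace Pool.Agent.H95

open Finset Matrix

section Coeffs

variable {F : Type*} [Field F] {σ : Type*} [DecidableEq σ]

lemma exists_coeffs {k : ℕ} (e : ℕ → ℕ) (Z : Finset σ) (hZ : Z.card + 1 = k) :
    ∃ c : Fin k → MvPolynomial σ F, c ≠ 0 ∧
      ∀ z ∈ Z, ∑ l : Fin k, c l * MvPolynomial.X z ^ e l = 0 := by
  classical
  let eq := Z.equivFin
  let M : Matrix (Fin k) (Fin k) (MvPolynomial σ F) := Matrix.of fun b l =>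
    if h : (b : ℕ) < Z.card then MvPolynomial.X ((eq.symm ⟨b, h⟩ : Z) : σ) ^ e l else 0
  have hM : M.det = 0 := by
    apply Matrix.det_eq_zero_of_row_eq_zero (⟨Z.card, by omega⟩ : Fin k)
    intro l
    simp [M]
  obtain ⟨c, hc, hc0⟩ := Matrix.exists_mulVec_eq_zero_iff.mpr hM
  refine ⟨c, hc, fun z hz => ?_⟩
  have h1 := congrFun hc0 ⟨eq ⟨z, hz⟩, by have := (eq ⟨z, hz⟩).isLt; omega⟩
  simp only [Matrix.mulVec, dotProduct, M, Matrix.of_apply, Pi.zero_apply] at h1
  have h2 : ((eq ⟨z, hz⟩ : Fin Z.card) : ℕ) < Z.card := (eq ⟨z, hz⟩).isLt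
  simp only [h2, dif_pos, Fin.eta, Equiv.symm_apply_apply] at h1
  rw [← h1]
  apply Finset.sum_congr rfl
  intro l _
  rw [mul_comm]

lemma sum_fin_eq_sum_range' {M : Type*} [AddCommMonoid M] {k : ℕ} (f : Fin k → M) :
    ∑ l : Fin k, f l = ∑ l ∈ range k, (if h : l < k then f ⟨l, h⟩ else 0) :=
  Finset.sum_fin_eq_sum_range f

lemma good_of_cond [Fintype σ] {k : ℕ} {ι : Type*} [Fintype ι] [DecidableEq ι] {Z : ι → Finset σ}
    (hZ : Cond k Z) (hcard : ∀ i, (Z i).card + 1 = k) : Good k univ Z (fun _ => 0) := by
  refine ⟨fun i _ => ?_, ?_⟩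
  · show (Z i).card + 0 ≤ k
    have := hcard i
    omega
  intro Ω _ hne A t hAt
  have h1 := hZ Ω hne
  have h2 : A ⊆ inter Z Ω := by
    intro j hj
    rw [mem_inter_iff']
    intro i hi
    exact (hAt i hi).1 hj
  have h3 := card_le_card h2
  have h4 : ∑ i ∈ Ω, (k - 0 - (Z i).card) = Ω.card := by
    rw [Finset.card_eq_sum_ones]
    apply Finset.sum_congr rfl
    intro i _
    have := hcard i
    omega
  obtain ⟨i, hi⟩ := hne
  have h5 : t ≤ 0 := (hAt i hi).2
  rw [h4]
  omega

/-- The coefficient matrix of a generic constrained generator matrix is nonsingular. -/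
lemma exists_coeff_matrix [Fintype σ] {k : ℕ} {e : ℕ → ℕ} (he : StrictMono e)
    {Z : Fin k → Finset σ} (hZ : Cond k Z) (hcard : ∀ i, (Z i).card + 1 = k) :
    ∃ D : Matrix (Fin k) (Fin k) (MvPolynomial σ F), D.det ≠ 0 ∧
      ∀ i, ∀ z ∈ Z i, ∑ l : Fin k, D i l * MvPolynomial.X z ^ e l = 0 := by
  have h := fun i => exists_coeffs (F := F) e (Z i) (hcard i)
  choose c hc hroot using h
  refine ⟨Matrix.of c, ?_, fun i z hz => hroot i z hz⟩
  intro hdet
  obtain ⟨b, hb, hb0⟩ := Matrix.exists_vecMul_eq_zero_iff.mpr hdet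
  apply hb
  funext i
  have hsol : Sol k e univ Z (fun _ => 0)
      (fun i l => if h : l < k then b i * c i ⟨l, h⟩ else 0) := by
    refine ⟨?_, ?_, ?_⟩
    · intro i _ l hl
      have : ¬ l < k := by omega
      simp only [this, dif_neg, not_false_eq_true]
    · intro i _ z hz
      have h1 := hroot i z hz
      have h2 : ∑ l ∈ range k, (if h : l < k then b i * c i ⟨l, h⟩ else 0)
            * MvPolynomial.X z ^ e l
          = ∑ l : Fin k, b i * (c i l * MvPolynomial.X z ^ e l) := by
        rw [Finset.sum_fin_eq_sum_range]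
        apply Finset.sum_congr rfl
        intro l hl
        rw [mem_range] at hl
        simp only [hl, dif_pos, mul_assoc]
      rw [h2, ← Finset.mul_sum, h1, mul_zero]
    · intro l
      by_cases hl : l < k
      · simp only [hl, dif_pos]
        have := congrFun hb0 ⟨l, hl⟩
        simpa [Matrix.vecMul, dotProduct] using this
      · simp only [hl, dif_neg, not_false_eq_true, Finset.sum_const_zero]
  have hzero := generic_independence he _ univ Z (fun _ => 0) (le_refl _)
    (good_of_cond hZ hcard) _ hsol i (mem_univ i)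
  obtain ⟨l, hl⟩ : ∃ l, c i l ≠ 0 := by
    by_contra hcon
    push Not at hcon
    exact hc i (funext hcon)
  have := hzero l
  simp only [l.isLt, dif_pos, Fin.eta] at this
  exact (mul_eq_zero.mp this).resolve_right hl

end Coeffs

section Minor

lemma exists_minor {E : Type*} [Field E] {k n : ℕ} (W : Matrix (Fin k) (Fin n) E)
    (hW : LinearIndependent E W.row) : ∃ T : Fin k → Fin n, (W.submatrix id T).det ≠ 0 := by
  obtain ⟨κ, a, ha, hsp, hli⟩ := exists_linearIndependent' E W.col
  have hfin : Finite κ := Finite.of_injective a ha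
  have : Fintype κ := Fintype.ofFinite κ
  have hrank : W.rank = k := by
    rw [hW.rank_matrix, Fintype.card_fin]
  have hcard : Fintype.card κ = k := by
    have h1 := finrank_span_eq_card hli
    rw [hsp] at h1
    have h2 := W.rank_eq_finrank_span_cols
    exact h1.symm.trans (h2.symm.trans hrank)
  have e : Fin k ≃ κ := (Fintype.equivFinOfCardEq hcard).symm
  refine ⟨a ∘ e, ?_⟩
  have hli2 : LinearIndependent E (W.submatrix id (a ∘ e)).col := by
    have := hli.comp e e.injective
    exact this
  rw [Matrix.linearIndependent_cols_iff_isUnit, Matrix.isUnit_iff_isUnit_det] at hli2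
  exact hli2.ne_zero

end Minor

section Generic

variable {K : Type*} [Field K] [Fintype K]

lemma card_pow_strictMono : StrictMono (fun l : ℕ => Fintype.card K ^ l) :=
  pow_right_strictMono₀ Fintype.one_lt_card

lemma moore_X_det_ne_zero (n : ℕ) :
    (moore (Fintype.card K) (fun j : Fin n => (MvPolynomial.X j : MvPolynomial (Fin n) K))).det
      ≠ 0 := by
  intro hdet
  obtain ⟨c, hc, hc0⟩ := Matrix.exists_vecMul_eq_zero_iff.mpr hdet
  apply hc
  have hv := vandermonde (F := K) (k := n) (card_pow_strictMono (K := K)) n (univ : Finset (Fin n)) 0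
    (by simp) (by simp) (fun l => if h : l < n then c ⟨l, h⟩ else 0)
    (by
      intro l hl
      have : ¬ l < n := by omega
      simp only [this, dif_neg, not_false_eq_true])
    (by
      intro z _
      have h1 := congrFun hc0 z
      simp only [Matrix.vecMul, dotProduct, moore, Matrix.of_apply, Pi.zero_apply] at h1
      rw [← h1, Finset.sum_fin_eq_sum_range]
      apply Finset.sum_congr rfl
      intro l hl
      rw [mem_range] at hl
      simp only [hl, dif_pos])
  funext i
  have := hv i
  simpa using this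

lemma rows_independent {E : Type*} [Field E] {k n : ℕ} (hkn : k ≤ n)
    (A : Matrix (Fin n) (Fin n) E) (hA : A.det ≠ 0) (D : Matrix (Fin k) (Fin k) E)
    (hD : D.det ≠ 0) :
    LinearIndependent E (D * A.submatrix (Fin.castLE hkn) id).row := by
  have hAu : IsUnit A := by
    rw [Matrix.isUnit_iff_isUnit_det]; exact isUnit_iff_ne_zero.mpr hA
  have h1 : LinearIndependent E A.row := Matrix.linearIndependent_rows_iff_isUnit.mpr hAu
  have h2 : LinearIndependent E (A.submatrix (Fin.castLE hkn) id).row :=
    h1.comp (Fin.castLE hkn) (Fin.castLE_injective hkn)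
  rw [Fintype.linearIndependent_iff] at h2 ⊢
  intro b hb
  have h3 : (b ᵥ* D) ᵥ* A.submatrix (Fin.castLE hkn) id = 0 := by
    rw [Matrix.vecMul_vecMul]
    funext j
    have := congrFun hb j
    simp only [Finset.sum_apply, Pi.smul_apply, smul_eq_mul, Matrix.row] at this
    simpa [Matrix.vecMul, dotProduct] using this
  have h4 : b ᵥ* D = 0 := by
    funext l
    refine h2 (b ᵥ* D) ?_ l
    funext j
    have := congrFun h3 j
    simp only [Finset.sum_apply, Pi.smul_apply, smul_eq_mul, Matrix.row]
    simpa [Matrix.vecMul, dotProduct] using this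
  intro i
  exact congrFun (Matrix.eq_zero_of_vecMul_eq_zero hD h4) i

lemma dual_transfer {E : Type*} [Field E] [Algebra K E] {k r n : ℕ} (hn : k + r = n) (hk : 0 < k)
    {Z : Fin k → Finset (Fin n)}
    {s : Fin k → Fin (r + 1) → Fin n} (hs : ∀ i, Function.Injective (s i))
    (hsZ : ∀ i j, (∀ a, s i a ≠ j) → j ∈ Z i)
    (g : Fin n → E) (hmoore : (moore (Fintype.card K) g).det ≠ 0)
    (D : Matrix (Fin k) (Fin k) E) (hD : D.det ≠ 0)
    (hDroot : ∀ i, ∀ z ∈ Z i, ∑ l : Fin k, D i l * g z ^ (Fintype.card K ^ (l : ℕ)) = 0) :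
    ∃ (h : Fin n → E) (T : Fin k → Fin n),
      (Matrix.of fun i b => wvec (Fintype.card K) h (s i) (T b)).det ≠ 0 := by
  classical
  set q := Fintype.card K with hq
  obtain ⟨h, hh⟩ := exists_dual (K := K) g hmoore
  have hmh := moore_det_dual (K := K) g h hh
  have hlih := linearIndependent_of_moore (K := K) h hmh
  -- the Frobenius twist of the primal solution
  set φ : E →ₐ[K] E := frob K E (r - 1) with hφ
  set D' : Matrix (Fin k) (Fin k) E := Matrix.of fun i l => φ (D i l) with hD'
  set A' : Matrix (Fin n) (Fin n) E := Matrix.of fun l j => φ (g j ^ (q ^ (l : ℕ))) with hA'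
  have hφinj : Function.Injective φ := φ.toRingHom.injective
  have hD'det : D'.det ≠ 0 := by
    have h1 : D'.det = φ.toRingHom D.det := by
      rw [RingHom.map_det]
      congr 1
    rw [h1]
    intro h0
    apply hD
    apply hφinj
    rw [map_zero]
    exact h0
  have hA'det : A'.det ≠ 0 := by
    have h1 : A'.det = φ.toRingHom (moore q g).det := by
      rw [RingHom.map_det]
      congr 1
    rw [h1]
    intro h0
    apply hmoore
    apply hφinj
    rw [map_zero]
    exact h0
  have hkn : k ≤ n := by omega
  have hyli := rows_independent hkn A' hA'det D' hD'det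
  set y : Fin k → Fin n → E := fun i => (D' * A'.submatrix (Fin.castLE hkn) id) i with hy
  have hyli' : LinearIndependent E y := hyli
  have hyval : ∀ i j, y i j = φ (∑ l : Fin k, D i l * g j ^ (q ^ (l : ℕ))) := by
    intro i j
    simp only [hy, Matrix.mul_apply, map_sum, map_mul, hD', hA', Matrix.submatrix_apply,
      Matrix.of_apply, id, Fin.val_castLE]
  have hysupp : ∀ i j, (∀ a, s i a ≠ j) → y i j = 0 := by
    intro i j hj
    rw [hyval, hDroot i j (hsZ i j hj), map_zero]
  have hyorth : ∀ i (b : Fin r), ∑ j, y i j * h j ^ (q ^ (b : ℕ)) = 0 := by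
    intro i b
    have h1 : ∀ l : Fin k, ∑ j, φ (g j ^ (q ^ (l : ℕ))) * h j ^ (q ^ (b : ℕ)) = 0 := by
      intro l
      have hb := b.isLt
      have hl := l.isLt
      have h2 := hh (r - 1 + l - b) (by omega)
      rw [if_neg (by omega)] at h2
      have h3 := orth (K := K) h2 b
      rw [← h3]
      apply Finset.sum_congr rfl
      intro j _
      rw [hφ, frob_apply, ← pow_mul, ← pow_add]
      congr 3
      omega
    have h4 : ∑ j, y i j * h j ^ (q ^ (b : ℕ))
        = ∑ l : Fin k, φ (D i l) * ∑ j, φ (g j ^ (q ^ (l : ℕ))) * h j ^ (q ^ (b : ℕ)) := by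
      simp only [hyval, map_sum, map_mul, Finset.sum_mul, Finset.mul_sum]
      rw [Finset.sum_comm]
      apply Finset.sum_congr rfl
      intro l _
      apply Finset.sum_congr rfl
      intro j _
      ring
    rw [h4]
    apply Finset.sum_eq_zero
    intro l _
    rw [h1 l, mul_zero]
  -- hence `y i` is a multiple of `wvec`
  have hmul : ∀ i, ∃ c : E, y i = fun j => c * wvec q h (s i) j := fun i =>
    wvec_unique hlih (hs i) (hysupp i) (hyorth i)
  choose c hc using hmul
  set W : Matrix (Fin k) (Fin n) E := Matrix.of fun i j => wvec q h (s i) j with hW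
  have hWli : LinearIndependent E W.row := by
    have hne : ∀ i, y i ≠ 0 := fun i => hyli'.ne_zero i
    have hc0 : ∀ i, c i ≠ 0 := by
      intro i hi
      apply hne i
      rw [hc i]
      funext j
      simp [hi]
    rw [Fintype.linearIndependent_iff] at hyli' ⊢
    intro b hb i
    have h1 := hyli' (fun i => b i * (c i)⁻¹) (by
      rw [← hb]
      apply Finset.sum_congr rfl
      intro i _
      rw [hc i]
      funext j
      simp only [Pi.smul_apply, smul_eq_mul, hW, Matrix.row, Matrix.of_apply]
      rw [mul_assoc, inv_mul_cancel_left₀ (hc0 i)]) i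
    exact (mul_eq_zero.mp h1).resolve_right (inv_ne_zero (hc0 i))
  obtain ⟨T, hT⟩ := exists_minor W hWli
  exact ⟨h, T, hT⟩

/-- Some maximal minor of the matrix of generic support-constrained dual-form codewords is a
nonzero polynomial. -/
theorem exists_generic_minor {k r n : ℕ} (hn : k + r = n) (hk : 0 < k)
    {Z : Fin k → Finset (Fin n)} (hZ : Cond k Z) (hcard : ∀ i, (Z i).card + 1 = k)
    {s : Fin k → Fin (r + 1) → Fin n} (hs : ∀ i, Function.Injective (s i))
    (hsZ : ∀ i j, (∀ a, s i a ≠ j) → j ∈ Z i) :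
    ∃ T : Fin k → Fin n, (Matrix.of fun i b => wvec (Fintype.card K)
      (fun j : Fin n => (MvPolynomial.X j : MvPolynomial (Fin n) K)) (s i) (T b)).det ≠ 0 := by
  classical
  have hinj : Function.Injective (algebraMap (MvPolynomial (Fin n) K)
      (FractionRing (MvPolynomial (Fin n) K))) := IsFractionRing.injective _ _
  obtain ⟨D, hD, hDroot⟩ := exists_coeff_matrix (F := K) (card_pow_strictMono (K := K)) hZ hcard
  obtain ⟨h, T, hT⟩ := dual_transfer (K := K) (E := FractionRing (MvPolynomial (Fin n) K)) hn hk hs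
    hsZ (fun j => algebraMap (MvPolynomial (Fin n) K) _ (MvPolynomial.X j)) (by
      have h1 := moore_X_det_ne_zero (K := K) n
      intro h2
      apply h1
      apply hinj
      rw [map_zero, ← h2, RingHom.map_det]
      congr 1
      ext i j
      simp [moore])
    (D.map (algebraMap _ _)) (by
      intro h2
      apply hD
      apply hinj
      rw [map_zero, ← h2, RingHom.map_det]
      rfl)
    (by
      intro i z hz
      have h1 := congrArg (algebraMap (MvPolynomial (Fin n) K)
        (FractionRing (MvPolynomial (Fin n) K))) (hDroot i z hz)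
      rw [map_sum, map_zero] at h1
      rw [← h1]
      apply Finset.sum_congr rfl
      intro l _
      rw [map_mul, map_pow, Matrix.map_apply])
  refine ⟨T, ?_⟩
  intro h0
  apply hT
  have h1 : (Matrix.of fun i b => wvec (Fintype.card K) h (s i) (T b)).det
      = (MvPolynomial.aeval (R := K) h).toRingHom (Matrix.of fun i b =>
      wvec (Fintype.card K) (fun j : Fin n => (MvPolynomial.X j : MvPolynomial (Fin n) K))
        (s i) (T b)).det := by
    rw [RingHom.map_det]
    congr 1
    ext i b
    simp only [Matrix.of_apply, RingHom.mapMatrix_apply, Matrix.map_apply]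
    rw [map_wvec]
    congr 1
    funext j
    simp
  rw [h1, h0, map_zero]

end Generic

section Degree

variable {K : Type*} [Field K]

lemma degreeOf_det_le {n k d : ℕ} (j : Fin n) (M : Matrix (Fin k) (Fin k) (MvPolynomial (Fin n) K))
    (hM : ∀ a b, (M a b).degreeOf j ≤ d) : M.det.degreeOf j ≤ k * d := by
  rw [Matrix.det_apply]
  refine (MvPolynomial.degreeOf_sum_le j _ _).trans ?_
  apply Finset.sup_le
  intro π _
  rcases Int.units_eq_one_or (Equiv.Perm.sign π) with h | h
  · rw [h, one_smul]
    refine (MvPolynomial.degreeOf_prod_le j _ _).trans ?_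
    refine (Finset.sum_le_sum (fun i _ => hM (π i) i)).trans ?_
    simp
  · rw [h]
    have : ((-1 : ℤˣ) • ∏ i, M (π i) i) = - ∏ i, M (π i) i := by
      rw [Units.smul_def]
      simp
    rw [this, MvPolynomial.degreeOf_neg]
    refine (MvPolynomial.degreeOf_prod_le j _ _).trans ?_
    refine (Finset.sum_le_sum (fun i _ => hM (π i) i)).trans ?_
    simp

lemma degreeOf_moore_det_le {n r q : ℕ} (hq : 0 < q) (j : Fin n) (f : Fin r → Fin n)
    (hf : Function.Injective f) :
    (Matrix.of fun (b a : Fin r) =>
      (MvPolynomial.X (f a) : MvPolynomial (Fin n) K) ^ (q ^ (b : ℕ))).det.degreeOf j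
      ≤ if r = 0 then 0 else q ^ (r - 1) := by
  have hbound : ∀ π : Equiv.Perm (Fin r),
      (∏ i, (MvPolynomial.X (f i) : MvPolynomial (Fin n) K) ^ (q ^ ((π i : Fin r) : ℕ))).degreeOf j
      ≤ if r = 0 then 0 else q ^ (r - 1) := by
    intro π
    refine (MvPolynomial.degreeOf_prod_le j _ _).trans ?_
    by_cases hj : ∃ i, f i = j
    · obtain ⟨i, rfl⟩ := hj
      rw [Finset.sum_eq_single i]
      · rw [MvPolynomial.degreeOf_X_self_pow]
        have h1 := i.isLt
        have h2 := (π i).isLt
        rw [if_neg (by omega)]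
        exact Nat.pow_le_pow_right hq (by omega)
      · intro b _ hb
        rw [MvPolynomial.degreeOf_X_pow_of_ne]
        exact fun h => hb (hf h).symm
      · intro h; exact absurd (mem_univ i) h
    · push Not at hj
      rw [Finset.sum_eq_zero]
      · exact Nat.zero_le _
      · intro b _
        rw [MvPolynomial.degreeOf_X_pow_of_ne]
        exact fun h => hj b h.symm
  rw [Matrix.det_apply]
  refine (MvPolynomial.degreeOf_sum_le j _ _).trans ?_
  apply Finset.sup_le
  intro π _
  rcases Int.units_eq_one_or (Equiv.Perm.sign π) with h | h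
  · rw [h, one_smul]
    exact hbound π
  · rw [h]
    have : ((-1 : ℤˣ) • ∏ i, (Matrix.of fun (b a : Fin r) =>
        (MvPolynomial.X (f a) : MvPolynomial (Fin n) K) ^ (q ^ (b : ℕ))) (π i) i)
        = - ∏ i, (MvPolynomial.X (f i) : MvPolynomial (Fin n) K) ^ (q ^ ((π i : Fin r) : ℕ)) := by
      rw [Units.smul_def]
      simp
    rw [this, MvPolynomial.degreeOf_neg]
    exact hbound π

lemma degreeOf_wvec_le {n r q : ℕ} (hq : 0 < q) (j : Fin n) (s : Fin (r + 1) → Fin n)
    (hs : Function.Injective s) (l : Fin n) :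
    (wvec q (fun j : Fin n => (MvPolynomial.X j : MvPolynomial (Fin n) K)) s l).degreeOf j
      ≤ if r = 0 then 0 else q ^ (r - 1) := by
  unfold wvec
  refine (MvPolynomial.degreeOf_sum_le j _ _).trans ?_
  apply Finset.sup_le
  intro a _
  split_ifs with h1 h2 h2
  · subst h2
    refine (MvPolynomial.degreeOf_mul_le _ _ _).trans ?_
    have h3 := degreeOf_moore_det_le (K := K) hq j (fun a' => s (a.succAbove a'))
      (hs.comp Fin.succAbove_right_injective)
    rw [if_pos rfl] at h3
    have h4 : ((-1 : MvPolynomial (Fin n) K) ^ (a : ℕ)).degreeOf j ≤ 0 := by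
      refine (MvPolynomial.degreeOf_pow_le _ _ _).trans ?_
      rw [MvPolynomial.degreeOf_neg, MvPolynomial.degreeOf_one, mul_zero]
    exact (Nat.add_le_add h4 h3).trans (by rw [zero_add])
  · refine (MvPolynomial.degreeOf_mul_le _ _ _).trans ?_
    have h3 := degreeOf_moore_det_le (K := K) hq j (fun a' => s (a.succAbove a'))
      (hs.comp Fin.succAbove_right_injective)
    rw [if_neg h2] at h3
    have h4 : ((-1 : MvPolynomial (Fin n) K) ^ (a : ℕ)).degreeOf j ≤ 0 := by
      refine (MvPolynomial.degreeOf_pow_le _ _ _).trans ?_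
      rw [MvPolynomial.degreeOf_neg, MvPolynomial.degreeOf_one, mul_zero]
    exact (Nat.add_le_add h4 h3).trans (by rw [zero_add])
  · rw [MvPolynomial.degreeOf_zero]
  · rw [MvPolynomial.degreeOf_zero]
    exact Nat.zero_le _

lemma degree_arith {k r n q : ℕ} (hn : k + r = n) (hk : 0 < k) (hq : 1 < q) :
    k * (if r = 0 then 0 else q ^ (r - 1)) + q ^ (n - 1) < q ^ n := by
  subst hn
  have h1 : k < q ^ k := Nat.lt_pow_self hq
  have h2 : q ^ (k + r) = q * q ^ (k + r - 1) := by
    rw [← pow_succ']
    congr 1
    omega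
  have h3 : 0 < q ^ (k + r - 1) := Nat.pow_pos (by omega)
  have h4 : k * (if r = 0 then 0 else q ^ (r - 1)) < q ^ (k + r - 1) := by
    split_ifs with h
    · rw [mul_zero]; exact h3
    · have h5 : q ^ (k + r - 1) = q ^ k * q ^ (r - 1) := by
        rw [← pow_add]
        congr 1
        omega
      rw [h5]
      exact Nat.mul_lt_mul_of_pos_right h1 (Nat.pow_pos (by omega))
  rw [h2]
  nlinarith

end Degree

section Main

variable {K : Type*} [Field K] [Fintype K] {L : Type*} [Field L] [Algebra K L]

/-- From a good point `h` of the dual parametrisation to a Gabidulin code. -/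
lemma exists_gabidulin_of_dual [Finite L] {k r n : ℕ} (hn : k + r = n) (hk : 0 < k)
    (h : Fin n → L) (hh : (moore (Fintype.card K) h).det ≠ 0) :
    ∃ g : Fin n → L, LinearIndependent K g ∧
      ∀ w : Fin n → L, (∀ b : Fin r, ∑ j, w j * h j ^ (Fintype.card K ^ (b : ℕ)) = 0) →
        w ∈ Submodule.span L (Set.range fun (t : Fin k) (j : Fin n) =>
          g j ^ (Fintype.card K ^ (t : ℕ))) := by
  classical
  set q := Fintype.card K with hq
  obtain ⟨c, hc⟩ := exists_dual (K := K) h hh
  have hmc := moore_det_dual (K := K) h c hc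
  have hinj : Function.Injective (frob K L (k - 1)) := (frob K L (k - 1)).toRingHom.injective
  have hsurj : Function.Surjective (frob K L (k - 1)) := Finite.surjective_of_injective hinj
  choose g hg using fun j => hsurj (c j)
  -- orthogonality
  have horth : ∀ (t : Fin k) (b : Fin r), ∑ j, g j ^ (q ^ (t : ℕ)) * h j ^ (q ^ (b : ℕ)) = 0 := by
    intro t b
    have ht := t.isLt
    have hb := b.isLt
    have h1 := hc ((b : ℕ) + (k - 1 - t)) (by omega)
    rw [if_neg (by omega)] at h1
    apply (frob K L (k - 1 - t)).toRingHom.injective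
    show frob K L (k - 1 - t) _ = frob K L (k - 1 - t) 0
    rw [map_zero, map_sum, ← h1]
    apply Finset.sum_congr rfl
    intro j _
    rw [map_mul, ← hg j, frob_apply, frob_apply, frob_apply, ← pow_mul, ← pow_mul, ← pow_add,
      ← pow_add, mul_comm]
    have : (t : ℕ) + (k - 1 - t) = k - 1 := by omega
    rw [this]
  -- g is independent
  have hmg : (moore q g).det ≠ 0 := by
    intro h0
    apply hmc
    have h1 : moore q c = (frob K L (k - 1)).toRingHom.mapMatrix (moore q g) := by
      ext i j
      simp only [moore, Matrix.of_apply, RingHom.mapMatrix_apply, Matrix.map_apply]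
      rw [map_pow]
      congr 1
      exact (hg j).symm
    rw [h1, ← RingHom.map_det, h0, map_zero]
  refine ⟨g, linearIndependent_of_moore (K := K) g hmg, ?_⟩
  -- dimension count
  have hmgu : IsUnit (moore q g) := by
    rw [Matrix.isUnit_iff_isUnit_det]; exact isUnit_iff_ne_zero.mpr hmg
  have hmhu : IsUnit (moore q h) := by
    rw [Matrix.isUnit_iff_isUnit_det]; exact isUnit_iff_ne_zero.mpr hh
  have hkn : k ≤ n := by omega
  have hrn : r ≤ n := by omega
  have hrowsg : LinearIndependent L (fun (t : Fin k) (j : Fin n) => g j ^ (q ^ (t : ℕ))) :=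
    (Matrix.linearIndependent_rows_iff_isUnit.mpr hmgu).comp (Fin.castLE hkn)
      (Fin.castLE_injective hkn)
  have hrowsh : LinearIndependent L (fun (b : Fin r) (j : Fin n) => h j ^ (q ^ (b : ℕ))) :=
    (Matrix.linearIndependent_rows_iff_isUnit.mpr hmhu).comp (Fin.castLE hrn)
      (Fin.castLE_injective hrn)
  let H : Matrix (Fin r) (Fin n) L := Matrix.of fun b j => h j ^ (q ^ (b : ℕ))
  have hHrank : H.rank = r := by
    have : LinearIndependent L H.row := hrowsh
    rw [this.rank_matrix, Fintype.card_fin]
  have hker : Module.finrank L (LinearMap.ker H.mulVecLin) = k := by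
    have h1 := LinearMap.finrank_range_add_finrank_ker H.mulVecLin
    have h2 : Module.finrank L (LinearMap.range H.mulVecLin) = r := hHrank
    rw [h2, Module.finrank_fin_fun] at h1
    omega
  have hle : Submodule.span L (Set.range fun (t : Fin k) (j : Fin n) => g j ^ (q ^ (t : ℕ)))
      ≤ LinearMap.ker H.mulVecLin := by
    rw [Submodule.span_le]
    rintro _ ⟨t, rfl⟩
    simp only [SetLike.mem_coe, LinearMap.mem_ker, Matrix.mulVecLin_apply]
    funext b
    simp only [Matrix.mulVec, dotProduct, H, Matrix.of_apply, Pi.zero_apply]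
    rw [← horth t b]
    apply Finset.sum_congr rfl
    intro j _
    rw [mul_comm]
  have hfin : Module.finrank L (Submodule.span L (Set.range fun (t : Fin k) (j : Fin n) =>
      g j ^ (q ^ (t : ℕ)))) = k := by
    rw [finrank_span_eq_card hrowsg, Fintype.card_fin]
  have heq := Submodule.eq_of_le_of_finrank_eq hle (by rw [hfin, hker])
  intro w hw
  rw [heq]
  simp only [LinearMap.mem_ker, Matrix.mulVecLin_apply]
  funext b
  simp only [Matrix.mulVec, dotProduct, H, Matrix.of_apply, Pi.zero_apply]
  rw [← hw b]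
  apply Finset.sum_congr rfl
  intro j _
  rw [mul_comm]

theorem main_maximal [FiniteDimensional K L] {k r n : ℕ} (hn : k + r = n) (hk : 0 < k)
    (hm : n ≤ Module.finrank K L)
    {Z : Fin k → Finset (Fin n)} (hZ : Cond k Z) (hcard : ∀ i, (Z i).card + 1 = k) :
    ∃ g : Fin n → L, LinearIndependent K g ∧ ∃ G : Matrix (Fin k) (Fin n) L,
      LinearIndependent L G.row ∧
      Submodule.span L (Set.range G.row) = Submodule.span L
        (Set.range fun (t : Fin k) (j : Fin n) => g j ^ (Fintype.card K ^ (t : ℕ))) ∧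
      ∀ i, ∀ j ∈ Z i, G i j = 0 := by
  classical
  have hLfin : Finite L := Module.finite_of_finite K
  have : Fintype L := Fintype.ofFinite L
  set q := Fintype.card K with hq
  have hq1 : 1 < q := Fintype.one_lt_card
  -- complements
  have hcompl : ∀ i, (Z i)ᶜ.card = r + 1 := by
    intro i
    rw [Finset.card_compl, Fintype.card_fin]
    have := hcard i
    omega
  let s : Fin k → Fin (r + 1) → Fin n := fun i => (Z i)ᶜ.orderEmbOfFin (hcompl i)
  have hs : ∀ i, Function.Injective (s i) := fun i => ((Z i)ᶜ.orderEmbOfFin (hcompl i)).injective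
  have hsZ : ∀ i j, (∀ a, s i a ≠ j) → j ∈ Z i := by
    intro i j hj
    by_contra hjZ
    have h1 : j ∈ Set.range ((Z i)ᶜ.orderEmbOfFin (hcompl i)) := by
      rw [Finset.range_orderEmbOfFin]
      simpa using hjZ
    obtain ⟨a, ha⟩ := h1
    exact hj a ha
  have hsZ' : ∀ i j, j ∈ Z i → ∀ a, s i a ≠ j := by
    intro i j hj a ha
    have h1 : s i a ∈ (Z i)ᶜ := Finset.orderEmbOfFin_mem _ (hcompl i) a
    rw [ha, Finset.mem_compl] at h1
    exact h1 hj
  obtain ⟨T, hT⟩ := exists_generic_minor (K := K) hn hk hZ hcard hs hsZ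
  have hM := moore_X_det_ne_zero (K := K) n
  set P := (Matrix.of fun i b => wvec q (fun j : Fin n => (MvPolynomial.X j : MvPolynomial (Fin n) K))
    (s i) (T b)).det with hP
  set M := (moore q (fun j : Fin n => (MvPolynomial.X j : MvPolynomial (Fin n) K))).det with hMdef
  have hPM : P * M ≠ 0 := mul_ne_zero hT hM
  set Q : MvPolynomial (Fin n) L := MvPolynomial.map (algebraMap K L) (P * M) with hQ
  have hQ0 : Q ≠ 0 := by
    intro h0
    apply hPM
    apply MvPolynomial.map_injective (algebraMap K L) (algebraMap K L).injective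
    rw [map_zero]
    exact h0
  have hdeg : ∀ j, Q.degreeOf j < Fintype.card L := by
    intro j
    have h1 : Q.degreeOf j ≤ (P * M).degreeOf j := by
      rw [MvPolynomial.degreeOf_eq_sup, MvPolynomial.degreeOf_eq_sup]
      exact Finset.sup_mono (MvPolynomial.support_map_subset _ _)
    have h2 := MvPolynomial.degreeOf_mul_le j P M
    have h3 : P.degreeOf j ≤ k * (if r = 0 then 0 else q ^ (r - 1)) :=
      degreeOf_det_le j _ (fun a b => by
        simp only [Matrix.of_apply]
        exact degreeOf_wvec_le (by omega) j (s a) (hs a) (T b))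
    have h4 : M.degreeOf j ≤ q ^ (n - 1) := by
      have := degreeOf_moore_det_le (K := K) (q := q) (by omega) j (fun a : Fin n => a)
        Function.injective_id
      rw [if_neg (by omega)] at this
      exact this
    have h5 := degree_arith hn hk hq1
    have h6 : Fintype.card L = q ^ Module.finrank K L := Module.card_eq_pow_finrank
    have h7 : q ^ n ≤ q ^ Module.finrank K L := Nat.pow_le_pow_right (by omega) hm
    omega
  obtain ⟨h, hh⟩ : ∃ h : Fin n → L, MvPolynomial.eval h Q ≠ 0 := by
    by_contra hcon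
    push Not at hcon
    exact hQ0 (MvPolynomial.eq_zero_of_eval_zero_at_prod_finset Q (fun _ => Finset.univ)
      (fun i => by rw [Finset.card_univ]; exact hdeg i) (fun x _ => hcon x))
  rw [hQ, MvPolynomial.eval_map, ← MvPolynomial.coe_eval₂Hom, map_mul] at hh
  have hPh := left_ne_zero_of_mul hh
  have hMh := right_ne_zero_of_mul hh
  have hMh' : (moore q h).det ≠ 0 := by
    intro h0
    apply hMh
    rw [hMdef, RingHom.map_det, ← h0]
    congr 1
    ext i j
    simp [moore]
  have hPh' : (Matrix.of fun i b => wvec q h (s i) (T b)).det ≠ 0 := by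
    intro h0
    apply hPh
    rw [hP, RingHom.map_det, ← h0]
    congr 1
    ext i b
    simp only [Matrix.of_apply, RingHom.mapMatrix_apply, Matrix.map_apply]
    rw [map_wvec]
    congr 1
    funext j
    simp
  obtain ⟨g, hg, hgspan⟩ := exists_gabidulin_of_dual (K := K) hn hk h hMh'
  refine ⟨g, hg, Matrix.of fun i j => wvec q h (s i) j, ?_, ?_, ?_⟩
  · rw [Fintype.linearIndependent_iff]
    intro b hb i
    have h1 : b ᵥ* (Matrix.of fun i b => wvec q h (s i) (T b)) = 0 := by
      funext a
      have := congrFun hb (T a)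
      simp only [Finset.sum_apply, Pi.smul_apply, smul_eq_mul, Matrix.row, Matrix.of_apply] at this
      simpa [Matrix.vecMul, dotProduct] using this
    exact congrFun (Matrix.eq_zero_of_vecMul_eq_zero hPh' h1) i
  · have hli : LinearIndependent L (Matrix.of fun i j => wvec q h (s i) j).row := by
      rw [Fintype.linearIndependent_iff]
      intro b hb i
      have h1 : b ᵥ* (Matrix.of fun i b => wvec q h (s i) (T b)) = 0 := by
        funext a
        have := congrFun hb (T a)
        simp only [Finset.sum_apply, Pi.smul_apply, smul_eq_mul, Matrix.row,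
          Matrix.of_apply] at this
        simpa [Matrix.vecMul, dotProduct] using this
      exact congrFun (Matrix.eq_zero_of_vecMul_eq_zero hPh' h1) i
    have hle : Submodule.span L (Set.range (Matrix.of fun i j => wvec q h (s i) j).row)
        ≤ Submodule.span L
          (Set.range fun (t : Fin k) (j : Fin n) => g j ^ (q ^ (t : ℕ))) := by
      rw [Submodule.span_le]
      rintro _ ⟨i, rfl⟩
      apply hgspan
      intro b
      exact wvec_orth h (s i) b
    apply Submodule.eq_of_le_of_finrank_le hle
    rw [finrank_span_eq_card hli, Fintype.card_fin]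
    have := finrank_range_le_card (R := L) (fun (t : Fin k) (j : Fin n) => g j ^ (q ^ (t : ℕ)))
    rw [Fintype.card_fin] at this
    exact this
  · intro i j hj
    exact wvec_eq_zero (hsZ' i j hj)

/-- Full answer: every zero pattern satisfying the MDS condition is realised by a Gabidulin
code over every extension of degree at least the length. -/
theorem gabidulin_support_constrained [FiniteDimensional K L] {k n : ℕ} (hk : 1 ≤ k) (hkn : k ≤ n)
    (hm : n ≤ Module.finrank K L) (Z : Fin k → Finset (Fin n))
    (hZ : ∀ Ω : Finset (Fin k), Ω.Nonempty →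
      (Finset.univ.filter (fun j => ∀ i ∈ Ω, j ∈ Z i)).card + Ω.card ≤ k) :
    ∃ g : Fin n → L, LinearIndependent K g ∧ ∃ G : Matrix (Fin k) (Fin n) L,
      LinearIndependent L G.row ∧
      Submodule.span L (Set.range G.row) = Submodule.span L
        (Set.range fun (t : Fin k) (j : Fin n) => g j ^ (Fintype.card K ^ (t : ℕ))) ∧
      ∀ i, ∀ j ∈ Z i, G i j = 0 := by
  have hZ' : Cond k Z := by
    intro Ω hΩ
    have h0 := hZ Ω hΩ
    unfold inter
    convert h0
  obtain ⟨Z', h1, h2, h3⟩ := exists_extend (k := k) (by rw [Fintype.card_fin]; exact hkn) _ Z hZ' rfl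
  obtain ⟨g, hg, G, hG1, hG2, hG3⟩ := main_maximal (K := K) (L := L) (r := n - k)
    (by omega) (by omega) hm h3 h2
  exact ⟨g, hg, G, hG1, hG2, fun i j hj => hG3 i j (h1 i hj)⟩

end Main

end Pool.Agent.H95
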